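import Pool.Agent.Helper80.RT.Defs

/-!
# Block RT-CNT: the number of maximal cells as a sum over ordered simplices

PROOF. Let `S ∈ cells H`, `S.card = n + 1`, `S = tie H ℓ`. Every `s : Fin (n + 1) → V n` which is injective with image `S` (there are `(n + 1)!` of them: they correspond to the
bijections `Fin (n + 1) ≃ S`, `Fintype.card_equiv`, `Finset.equivFinOfCardEq`) satisfies `H ∈ ev1 s` (with `ℓ`) and `det (mat s) ≠ 0`: otherwise there is `c ≠ 0` with
`∑ i, c i • row (s i) = 0` (`Matrix.exists_vecMul_eq_zero_iff`), and `g v = c i` for `v = s i`, `0` outside contradicts `hH S ℓ`. Different `S` have different `s`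
(the image of `s` is `S`). So the left side is the number of pairs, at most the number of the good `s` with `H ∈ ev1 s` (`Finset.card_eq_sum_card_fiberwise` or
`Finset.sum_comm`, double counting).
-/

set_option autoImplicit false

namespace Pool.Agent.Helper80.RT

open Finset MeasureTheory
open Pool.Agent.Helper80.CT (vx cubeA cubeK Tri)
open scoped ENNReal

open Classical in
/-- The ordered nondegenerate simplices. -/
noncomputable def good (n : ℕ) : Finset (Fin (n + 1) → V n) :=
  univ.filter fun s => Function.Injective s ∧ (mat s).det ≠ 0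

private theorem det50 {n : ℕ} {H : V n → ℝ} (hH : Generic H) {ℓ : Fin (n + 1) → ℝ} {s : Fin (n + 1) → V n}
    (hs : Function.Injective s) (hl : ∀ i, H (s i) = ev ℓ (s i)) : (mat s).det ≠ 0 := by
  classical
  intro h0
  obtain ⟨c, hc0, hc⟩ := Matrix.exists_vecMul_eq_zero_iff.2 h0
  have h1 : ∑ i, c i • row (s i) = 0 := by
    funext k
    have h2 := congrFun hc k
    rw [Finset.sum_apply]
    exact h2
  have h3 := hH (univ.image s) ℓ (fun v hv => by
    obtain ⟨i, _, rfl⟩ := mem_image.1 hv
    exact hl i) (fun v => ∑ i, if s i = v then c i else 0) (fun v hv => by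
    refine sum_eq_zero fun i _ => if_neg fun h => hv ?_
    rw [← h]
    exact mem_image_of_mem s (mem_univ i)) (by
    have h4 : ∀ v : V n, (∑ i, if s i = v then c i else 0) • row v = ∑ i, if s i = v then c i • row v else 0 := by
      intro v
      rw [Finset.sum_smul]
      refine sum_congr rfl fun i _ => ?_
      split_ifs
      · rfl
      · rw [zero_smul]
    simp_rw [h4]
    rw [sum_comm]
    refine Eq.trans ?_ h1
    refine sum_congr rfl fun i _ => ?_
    rw [sum_ite_eq, if_pos (mem_univ _)])
  apply hc0
  funext i
  have h5 := congrFun h3 (s i)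
  have h6 : (∑ i', if s i' = s i then c i' else 0) = c i := by
    rw [sum_eq_single i (fun b _ hb => if_neg fun h => hb (hs h)) (fun h => absurd (mem_univ i) h), if_pos rfl]
  rw [← h6]
  exact h5

open Classical in
theorem card_cells_le {n : ℕ} {H : V n → ℝ} (hH : Generic H) :
    (n + 1).factorial * ((cells H).filter fun S => S.card = n + 1).card ≤
      ((good n).filter fun s => H ∈ ev1 s).card := by
  set A : Finset (Finset (V n)) := (cells H).filter fun S => S.card = n + 1 with hA
  set B : Finset (Fin (n + 1) → V n) := (good n).filter fun s => H ∈ ev1 s with hB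
  have h1 : ∀ S ∈ A, (n + 1).factorial ≤ (B.filter fun s => univ.image s = S).card := by
    intro S hS
    rw [hA, mem_filter, mem_cells] at hS
    obtain ⟨⟨ℓ, hl, ht⟩, hc⟩ := hS
    let e : S ≃ Fin (n + 1) := S.equivFinOfCardEq hc
    let φ : Equiv.Perm (Fin (n + 1)) → (Fin (n + 1) → V n) := fun σ i => (e.symm (σ i) : V n)
    have hφ : Function.Injective φ := by
      intro σ τ h
      apply Equiv.ext
      intro i
      have h2 := congrFun h i
      exact e.symm.injective (Subtype.ext h2)
    have h2 : (univ.image φ).card = (n + 1).factorial := by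
      rw [card_image_of_injective _ hφ, card_univ, Fintype.card_perm, Fintype.card_fin]
    rw [← h2]
    refine card_le_card ?_
    intro s hs
    obtain ⟨σ, _, rfl⟩ := mem_image.1 hs
    have hinj : Function.Injective (φ σ) := by
      intro i i' h
      exact σ.injective (e.symm.injective (Subtype.ext h))
    have htie : ∀ i, H (φ σ i) = ev ℓ (φ σ i) := by
      intro i
      rw [← mem_tie, ht]
      exact (e.symm (σ i)).2
    rw [mem_filter]
    refine ⟨?_, ?_⟩
    · rw [hB, mem_filter]
      refine ⟨?_, ℓ, hl, htie⟩
      unfold good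
      rw [mem_filter]
      exact ⟨mem_univ _, hinj, det50 hH hinj htie⟩
    · apply Finset.ext
      intro v
      constructor
      · intro hv
        obtain ⟨i, _, rfl⟩ := mem_image.1 hv
        exact (e.symm (σ i)).2
      · intro hv
        refine mem_image.2 ⟨σ.symm (e ⟨v, hv⟩), mem_univ _, ?_⟩
        change (e.symm (σ (σ.symm (e ⟨v, hv⟩))) : V n) = v
        rw [Equiv.apply_symm_apply, Equiv.symm_apply_apply]
  have h2 : (A.biUnion fun S => B.filter fun s => univ.image s = S).card =
      ∑ S ∈ A, (B.filter fun s => univ.image s = S).card := by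
    refine card_biUnion fun S _ T _ hST => ?_
    rw [Function.onFun, disjoint_left]
    intro s hs ht
    exact hST ((mem_filter.1 hs).2.symm.trans (mem_filter.1 ht).2)
  calc (n + 1).factorial * A.card = ∑ S ∈ A, (n + 1).factorial := by
        rw [sum_const, smul_eq_mul, mul_comm]
    _ ≤ ∑ S ∈ A, (B.filter fun s => univ.image s = S).card := sum_le_sum h1
    _ = (A.biUnion fun S => B.filter fun s => univ.image s = S).card := h2.symm
    _ ≤ B.card := card_le_card fun s hs => by
        obtain ⟨S, _, h3⟩ := mem_biUnion.1 hs
        exact (mem_filter.1 h3).1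

end Pool.Agent.Helper80.RT
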