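import Pool.Agent.Helper80.RT.Det
import Mathlib

/-!
# Block RT-CS: the first moment of the determinant, and the integral over `p`

* `sum_abs_det`: Cauchy-Schwarz with the weights `w s = ∏ i, pm _ (s i) ≥ 0`, `∑ s, w s = 1` (`sum_pm`, `Finset.prod_univ_sum`):
  `(∑ |det| w)² ≤ ∑ det² w` (`Finset.sum_mul_sq_le_sq_mul_sq` or `inner_mul_le_norm_mul_norm`, with `√w`), `sum_det_sq`, and `lg x * (1 - lg x) = (hs x)²`.
* `int_hs`: `hs` is the derivative of `2 * arctan (exp (x / 2))`; the limits are `0` and `π` (`MeasureTheory.integral_of_hasDerivAt_of_tendsto`, or the `Iic`, `Ioi` versions for nonnegative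
  derivatives, to get integrability); `lintegral` from `integral` by `ofReal_integral_eq_lintegral_ofReal`. Only `≤` is needed.
* `int_prod_hs`: Tonelli for finite products (induction on `n` with `MeasureTheory.volume_preserving_piFinSuccAbove (fun _ => ℝ) 0`, or a Mathlib lemma on integrals of products over `Fintype`).
-/

set_option autoImplicit false

namespace Pool.Agent.Helper80.RT

open Finset MeasureTheory
open Pool.Agent.Helper80.CT (vx cubeA cubeK Tri)
open scoped ENNReal

private theorem hs_deriv24 (x : ℝ) :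
    HasDerivAt (fun x : ℝ => 2 * Real.arctan (Real.exp (x / 2))) (hs x) x := by
  have h1 : HasDerivAt (fun x : ℝ => Real.exp (x / 2)) (Real.exp (x / 2) * (1 / 2)) x := by
    have h := ((hasDerivAt_id x).div_const 2).exp
    simpa using h
  have h2 := (h1.arctan).const_mul 2
  have h3 : Real.exp (x / 2) ^ 2 = Real.exp x := by
    rw [← Real.exp_nat_mul]
    congr 1
    push_cast
    ring
  have he : hs x = 2 * (1 / (1 + Real.exp (x / 2) ^ 2) * (Real.exp (x / 2) * (1 / 2))) := by
    unfold hs
    rw [h3]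
    have : 1 + Real.exp x ≠ 0 := by positivity
    field_simp
  rw [he]
  exact h2

private theorem hs_even24 (x : ℝ) : hs (-x) = hs x := by
  unfold hs
  have h1 : Real.exp (-x) = 1 / Real.exp x := by rw [Real.exp_neg, one_div]
  have h2 : Real.exp (-x / 2) = 1 / Real.exp (x / 2) := by
    rw [neg_div, Real.exp_neg, one_div]
  have h3 : Real.exp (x / 2) ^ 2 = Real.exp x := by
    rw [← Real.exp_nat_mul]
    congr 1
    push_cast
    ring
  rw [h1, h2, ← h3]
  have h4 : 0 < Real.exp (x / 2) := Real.exp_pos _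
  field_simp
  ring

private theorem hs_top24 :
    Filter.Tendsto (fun x : ℝ => 2 * Real.arctan (Real.exp (x / 2))) Filter.atTop
      (nhds (2 * (Real.pi / 2))) := by
  refine Filter.Tendsto.const_mul 2 ?_
  exact (Real.tendsto_arctan_atTop.mono_right nhdsWithin_le_nhds).comp
    (Real.tendsto_exp_atTop.comp (Filter.tendsto_id.atTop_div_const (by norm_num)))

private theorem hs_bot24 :
    Filter.Tendsto (fun x : ℝ => 2 * Real.arctan (Real.exp (x / 2))) Filter.atBot
      (nhds (2 * Real.arctan 0)) := by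
  refine Filter.Tendsto.const_mul 2 ?_
  exact (Real.continuous_arctan.tendsto 0).comp
    (Real.tendsto_exp_atBot.comp (Filter.tendsto_id.atBot_div_const (by norm_num)))

private theorem hs_integrable24 : Integrable hs := by
  have h1 : IntegrableOn hs (Set.Ioi 0) :=
    integrableOn_Ioi_deriv_of_nonneg' (fun x _ => hs_deriv24 x) (fun x _ => hs_nonneg x) hs_top24
  have h2 : IntegrableOn hs (Set.Iio 0) := by
    have h := (MeasurePreserving.integrableOn_comp_preimage (f := hs) (s := Set.Ioi (0 : ℝ))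
      (Measure.measurePreserving_neg (volume : Measure ℝ))
      (MeasurableEquiv.neg ℝ).measurableEmbedding).2 h1
    have e1 : hs ∘ Neg.neg = hs := by
      funext x
      exact hs_even24 x
    have e2 : (Neg.neg ⁻¹' Set.Ioi (0 : ℝ)) = Set.Iio 0 := by
      ext x
      simp
    rw [e1, e2] at h
    exact h
  have h3 : IntegrableOn hs (Set.Iic 0) := (integrableOn_Iic_iff_integrableOn_Iio (by simp)).2 h2
  rw [← integrableOn_univ, ← Set.Iic_union_Ioi (a := (0 : ℝ))]
  exact h3.union h1

private theorem hs_integral24 : ∫ x, hs x = Real.pi := by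
  rw [integral_of_hasDerivAt_of_tendsto hs_deriv24 hs_integrable24 hs_bot24 hs_top24]
  simp only [Real.arctan_zero, mul_zero, sub_zero]
  ring

theorem sum_abs_det {n : ℕ} (p : Fin n → ℝ) :
    ∑ s : Fin (n + 1) → V n, |(mat s).det| * ∏ i, pm (fun j => lg (p j)) (s i) ≤
      Real.sqrt ((n + 1).factorial) * ∏ j, hs (p j) := by
  classical
  obtain ⟨w, hw⟩ : ∃ w : (Fin (n + 1) → V n) → ℝ, ∀ s, w s = ∏ i, pm (fun j => lg (p j)) (s i) :=
    ⟨_, fun _ => rfl⟩
  have hw0 : ∀ s, 0 ≤ w s := fun s => by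
    rw [hw]
    exact Finset.prod_nonneg fun i _ => pm_nonneg p (s i)
  have hw1 : ∑ s, w s = 1 := by
    have h := Finset.prod_univ_sum (t := fun _ : Fin (n + 1) => (univ : Finset (V n)))
      (f := fun _ v => pm (fun j => lg (p j)) v)
    rw [Fintype.piFinset_univ] at h
    calc ∑ s, w s = ∑ s : Fin (n + 1) → V n, ∏ i, pm (fun j => lg (p j)) (s i) :=
          Finset.sum_congr rfl fun s _ => hw s
      _ = ∏ _i : Fin (n + 1), ∑ v, pm (fun j => lg (p j)) v := h.symm
      _ = 1 := by simp [sum_pm]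
  have hcs := Finset.sum_mul_sq_le_sq_mul_sq univ (fun s => |(mat s).det| * Real.sqrt (w s))
    (fun s => Real.sqrt (w s))
  have e1 : ∀ s : Fin (n + 1) → V n, |(mat s).det| * Real.sqrt (w s) * Real.sqrt (w s) =
      |(mat s).det| * w s := fun s => by
    rw [mul_assoc, Real.mul_self_sqrt (hw0 s)]
  have e2 : ∀ s : Fin (n + 1) → V n, (|(mat s).det| * Real.sqrt (w s)) ^ 2 =
      (mat s).det ^ 2 * w s := fun s => by
    rw [mul_pow, sq_abs, Real.sq_sqrt (hw0 s)]
  have e3 : ∀ s : Fin (n + 1) → V n, Real.sqrt (w s) ^ 2 = w s := fun s => Real.sq_sqrt (hw0 s)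
  have hdet : ∑ s, (mat s).det ^ 2 * w s = (n + 1).factorial * ∏ j, (hs (p j)) ^ 2 := by
    have h := sum_det_sq (fun j => lg (p j))
    calc ∑ s, (mat s).det ^ 2 * w s =
          ∑ s : Fin (n + 1) → V n, (mat s).det ^ 2 * ∏ i, pm (fun j => lg (p j)) (s i) :=
          Finset.sum_congr rfl fun s _ => by rw [hw]
      _ = (n + 1).factorial * ∏ j, lg (p j) * (1 - lg (p j)) := h
      _ = (n + 1).factorial * ∏ j, (hs (p j)) ^ 2 := by
          congr 1
          refine Finset.prod_congr rfl fun j _ => ?_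
          rw [one_sub_lg]
          unfold lg hs
          have h3 : Real.exp (p j / 2) ^ 2 = Real.exp (p j) := by
            rw [← Real.exp_nat_mul]
            congr 1
            push_cast
            ring
          rw [div_pow, h3, div_mul_div_comm, mul_one]
          ring
  have hcs2 : (∑ s, |(mat s).det| * w s) ^ 2 ≤ (n + 1).factorial * ∏ j, (hs (p j)) ^ 2 := by
    calc (∑ s, |(mat s).det| * w s) ^ 2 =
          (∑ s, |(mat s).det| * Real.sqrt (w s) * Real.sqrt (w s)) ^ 2 := by
          congr 1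
          exact Finset.sum_congr rfl fun s _ => (e1 s).symm
      _ ≤ (∑ s, (|(mat s).det| * Real.sqrt (w s)) ^ 2) * ∑ s, Real.sqrt (w s) ^ 2 := hcs
      _ = (∑ s, (mat s).det ^ 2 * w s) * ∑ s, w s := by
          congr 1
          · exact Finset.sum_congr rfl fun s _ => e2 s
          · exact Finset.sum_congr rfl fun s _ => e3 s
      _ = (n + 1).factorial * ∏ j, (hs (p j)) ^ 2 := by rw [hw1, mul_one, hdet]
  have hfin : Real.sqrt ((n + 1).factorial * ∏ j, (hs (p j)) ^ 2) =
      Real.sqrt ((n + 1).factorial) * ∏ j, hs (p j) := by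
    rw [Real.sqrt_mul (by positivity), Finset.prod_pow,
      Real.sqrt_sq (Finset.prod_nonneg fun j _ => hs_nonneg (p j))]
  calc ∑ s : Fin (n + 1) → V n, |(mat s).det| * ∏ i, pm (fun j => lg (p j)) (s i) =
        ∑ s, |(mat s).det| * w s := Finset.sum_congr rfl fun s _ => by rw [hw]
    _ ≤ |∑ s, |(mat s).det| * w s| := le_abs_self _
    _ ≤ Real.sqrt ((n + 1).factorial * ∏ j, (hs (p j)) ^ 2) := Real.abs_le_sqrt hcs2
    _ = Real.sqrt ((n + 1).factorial) * ∏ j, hs (p j) := hfin

theorem int_hs : ∫⁻ x : ℝ, ENNReal.ofReal (hs x) ≤ ENNReal.ofReal Real.pi := by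
  rw [← ofReal_integral_eq_lintegral_ofReal hs_integrable24
    (Filter.Eventually.of_forall hs_nonneg), hs_integral24]

theorem int_prod_hs (n : ℕ) :
    ∫⁻ p : Fin n → ℝ, ENNReal.ofReal (∏ j, hs (p j)) ≤ ENNReal.ofReal (Real.pi ^ n) := by
  have hI : Integrable (fun p : Fin n → ℝ => ∏ j, hs (p j)) :=
    Integrable.fintype_prod (f := fun _ : Fin n => hs) (fun _ => hs_integrable24)
  rw [← ofReal_integral_eq_lintegral_ofReal hI
    (Filter.Eventually.of_forall fun p => Finset.prod_nonneg fun j _ => hs_nonneg (p j)),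
    integral_fintype_prod_volume_eq_pow, hs_integral24, Fintype.card_fin]

end Pool.Agent.Helper80.RT
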