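import Pool.Agent.Helper80.CT.Geo

/-!
# Project RT (MP_dd5568_co, MP_980383_co): random regular triangulations of the cube. Definitions

THEOREM. For all `n` the `n`-cube has a (face-to-face, no new vertices) triangulation with at most `π ^ n * √((n + 1)!) / (n + 1)` simplices.

IDEA. Heights `H v`, `v ∈ {0, 1}ⁿ`, independent with density `exp (h - exp h)` (logarithms of exponential random variables). The number of
simplices of the lower hull has the expectation `(1 / (n + 1)) ∫ E |det (1, v_i)_{i ≤ n}| dp`, where the vertices `v_i` are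
independent with the product distribution with the means `q_j = exp p_j / (1 + exp p_j)`, and `E det² = (n + 1)! ∏ q_j (1 - q_j)`.

`row v = (1, v)`, `ev ℓ v` is the value of the affine function `ℓ` at `v`, `mat s` is the matrix with the rows `row (s i)`.
-/

set_option autoImplicit false

namespace Pool.Agent.Helper80.RT

open Finset MeasureTheory
open Pool.Agent.Helper80.CT (vx cubeA cubeK Tri)
open scoped ENNReal

/-- The vertices of the cube. -/
abbrev V (n : ℕ) : Type := Fin n → Bool

/-- The vertex in homogeneous coordinates. -/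
def row {n : ℕ} (v : V n) : Fin (n + 1) → ℝ := Fin.cons 1 (vx v)

/-- The value of the affine function `ℓ` at the vertex `v`. -/
def ev {n : ℕ} (ℓ : Fin (n + 1) → ℝ) (v : V n) : ℝ := ∑ k, row v k * ℓ k

/-- The matrix with the rows `(1, s i)`. -/
def mat {n : ℕ} (s : Fin (n + 1) → V n) : Matrix (Fin (n + 1)) (Fin (n + 1)) ℝ :=
  Matrix.of fun i => row (s i)

theorem mat_mulVec {n : ℕ} (s : Fin (n + 1) → V n) (ℓ : Fin (n + 1) → ℝ) :
    (mat s).mulVec ℓ = fun i => ev ℓ (s i) := rfl

theorem ev_cons {n : ℕ} (b : ℝ) (p : Fin n → ℝ) (v : V n) :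
    ev (Fin.cons b p) v = b + ∑ j, vx v j * p j := by
  unfold ev row
  rw [Fin.sum_univ_succ]
  simp

open Classical in
/-- The vertices at which the affine function `ℓ` touches the heights `H`. -/
noncomputable def tie {n : ℕ} (H : V n → ℝ) (ℓ : Fin (n + 1) → ℝ) : Finset (V n) :=
  univ.filter fun v => H v = ev ℓ v

open Classical in
/-- The cells of the lower hull of the heights. -/
noncomputable def cells {n : ℕ} (H : V n → ℝ) : Finset (Finset (V n)) :=
  univ.filter fun S => ∃ ℓ, (∀ v, ev ℓ v ≤ H v) ∧ tie H ℓ = S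

theorem mem_tie {n : ℕ} {H : V n → ℝ} {ℓ : Fin (n + 1) → ℝ} {v : V n} : v ∈ tie H ℓ ↔ H v = ev ℓ v := by
  classical
  unfold tie
  rw [mem_filter]
  exact ⟨fun h => h.2, fun h => ⟨mem_univ v, h⟩⟩

theorem mem_cells {n : ℕ} {H : V n → ℝ} {S : Finset (V n)} :
    S ∈ cells H ↔ ∃ ℓ, (∀ v, ev ℓ v ≤ H v) ∧ tie H ℓ = S := by
  classical
  unfold cells
  rw [mem_filter]
  exact ⟨fun h => h.2, fun h => ⟨mem_univ S, h⟩⟩

/-- No affinely dependent set of vertices lies on the graph of an affine function. -/
def Generic {n : ℕ} (H : V n → ℝ) : Prop :=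
  ∀ (S : Finset (V n)) (ℓ : Fin (n + 1) → ℝ), (∀ v ∈ S, H v = ev ℓ v) →
    ∀ g : V n → ℝ, (∀ v, v ∉ S → g v = 0) → ∑ v, g v • row v = 0 → g = 0

/-- The density of the logarithm of an exponential random variable. -/
noncomputable def dens (h : ℝ) : ℝ≥0∞ := ENNReal.ofReal (Real.exp (h - Real.exp h))

/-- The heights for which `s` is contained in a cell. -/
def ev1 {n : ℕ} (s : Fin (n + 1) → V n) : Set (V n → ℝ) :=
  {H | ∃ ℓ, (∀ v, ev ℓ v ≤ H v) ∧ ∀ i, H (s i) = ev ℓ (s i)}

/-- The product distribution on the vertices with the means `q j`. -/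
noncomputable def pm {n : ℕ} (q : Fin n → ℝ) (v : V n) : ℝ := ∏ j, if v j then q j else 1 - q j

/-- The logistic function. -/
noncomputable def lg (x : ℝ) : ℝ := Real.exp x / (1 + Real.exp x)

/-- The standard deviation of a Bernoulli variable with mean `lg x`. -/
noncomputable def hs (x : ℝ) : ℝ := Real.exp (x / 2) / (1 + Real.exp x)

theorem dens_meas : Measurable dens := by
  unfold dens
  fun_prop

theorem hs_nonneg (x : ℝ) : 0 ≤ hs x := by
  unfold hs
  positivity

theorem lg_pos (x : ℝ) : 0 < lg x := by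
  unfold lg
  positivity

theorem one_sub_lg (x : ℝ) : 1 - lg x = 1 / (1 + Real.exp x) := by
  unfold lg
  have : 1 + Real.exp x ≠ 0 := by positivity
  field_simp
  ring

theorem pm_nonneg {n : ℕ} (p : Fin n → ℝ) (v : V n) : 0 ≤ pm (fun j => lg (p j)) v := by
  unfold pm
  refine Finset.prod_nonneg fun j _ => ?_
  split_ifs
  · exact (lg_pos _).le
  · rw [one_sub_lg]
    positivity

end Pool.Agent.Helper80.RT
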