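import Pool.Agent.Helper80.RT.Defs

/-!
# Block RT-DET: the second moment of the determinant of random vertices

PROOF of `sum_pm`: `Finset.prod_univ_sum` (`∏ j, ∑ b : Bool, f j b = ∑ v ∈ Fintype.piFinset _, ∏ j, f j (v j)`), `q j + (1 - q j) = 1`.
PROOF of `sum_det_sq`. Subtract `q j` times the first column from the column `j + 1`: `det (mat s) = det M`, `M i 0 = 1`, `M i (j + 1) = vx (s i) j - q j` (for example
`M = mat s * U` with `U` unitriangular, `U 0 (j + 1) = - q j`; or `Matrix.det_updateCol`-like lemmas). Let `x v : Fin (n + 1) → ℝ`, `x v 0 = 1`, `x v (j + 1) = vx v j - q j`. By `Matrix.det_apply'`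
`det² = ∑ σ τ, sign σ sign τ ∏ i, x (s (σ i)) i * x (s (τ i)) i`; reindex each product by the row (`σ`, `τ` replaced by their inverses, `Matrix.det_apply`, `Matrix.det_transpose`):
`∏ i, x (s i) (σ i) * x (s i) (τ i)`. Sum over `s` with the weights `∏ i, pm q (s i)` (`Finset.prod_univ_sum` again, the index set is now `Fin (n + 1)` and the
values are in `V n`): `∏ i, c (σ i) (τ i)` with `c a b = ∑ v, pm q v * x v a * x v b`. Product structure: `c 0 0 = 1`, `c 0 (j + 1) = c (j + 1) 0 = 0`,
`c (i + 1) (j + 1) = 0` for `i ≠ j`, `c (j + 1) (j + 1) = q j * (1 - q j)` (in the product over the coordinates the factor `j` is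
`∑ b : Bool, (if b then q j else 1 - q j) * ((if b then 1 else 0) - q j) = 0`, resp. with the square). So only `σ = τ` contributes: `∑ σ, ∏ i, c (σ i) (σ i) = (n + 1)! * ∏ j, q j * (1 - q j)`.
-/

set_option autoImplicit false

namespace Pool.Agent.Helper80.RT

open Finset MeasureTheory
open Pool.Agent.Helper80.CT (vx cubeA cubeK Tri)
open scoped ENNReal

private theorem prod_sum_52 {ι α : Type*} [Fintype ι] [DecidableEq ι] [Fintype α]
    (f : ι → α → ℝ) : ∑ v : ι → α, ∏ i, f i (v i) = ∏ i, ∑ a, f i a := by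
  rw [Finset.prod_univ_sum, Fintype.piFinset_univ]

/-- Moments of products over the coordinates. -/
private theorem sum_pm_prod_52 {n : ℕ} (q : Fin n → ℝ) (g : Fin n → Bool → ℝ) :
    ∑ v : V n, pm q v * ∏ k, g k (v k) = ∏ k, (q k * g k true + (1 - q k) * g k false) := by
  have h1 : ∀ v : V n, pm q v * ∏ k, g k (v k) =
      ∏ k, (fun k (b : Bool) => (if b then q k else 1 - q k) * g k b) k (v k) := by
    intro v
    unfold pm
    rw [← Finset.prod_mul_distrib]
  rw [Finset.sum_congr rfl (fun v _ => h1 v),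
    prod_sum_52 (fun k (b : Bool) => (if b then q k else 1 - q k) * g k b)]
  apply Finset.prod_congr rfl
  intro k _
  rw [Fintype.sum_bool]
  simp

theorem sum_pm {n : ℕ} (q : Fin n → ℝ) : ∑ v : V n, pm q v = 1 := by
  have h := sum_pm_prod_52 q (fun _ _ => 1)
  simp only [Finset.prod_const_one, mul_one] at h
  rw [h]
  apply Finset.prod_eq_one
  intro k _
  ring

/-- The centered row. -/
private noncomputable def cr52 {n : ℕ} (q : Fin n → ℝ) (v : V n) : Fin (n + 1) → ℝ :=
  Fin.cons 1 (fun j => vx v j - q j)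

private theorem cr_succ_52 {n : ℕ} (q : Fin n → ℝ) (v : V n) (j : Fin n) :
    cr52 q v j.succ = ∏ k, (fun k (b : Bool) => if k = j then (if b then 1 else 0) - q k else 1)
      k (v k) := by
  rw [Finset.prod_eq_single j]
  · simp [cr52, vx]
  · intro k _ hk
    simp [hk]
  · intro h
    exact absurd (Finset.mem_univ j) h

private theorem cr_zero_52 {n : ℕ} (q : Fin n → ℝ) (v : V n) : cr52 q v 0 = 1 := by
  simp [cr52]

/-- The second moments of the centered rows. -/
private theorem cov_52 {n : ℕ} (q : Fin n → ℝ) (a b : Fin (n + 1)) :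
    ∑ v : V n, pm q v * (cr52 q v a * cr52 q v b) =
      if a = b then (Fin.cons 1 (fun j => q j * (1 - q j)) : Fin (n + 1) → ℝ) a else 0 := by
  have hone : ∀ j : Fin n, ∑ v : V n, pm q v * cr52 q v j.succ = 0 := by
    intro j
    rw [Finset.sum_congr rfl (fun v _ => by rw [cr_succ_52]),
      sum_pm_prod_52 q (fun k (b : Bool) => if k = j then (if b then 1 else 0) - q k else 1)]
    apply Finset.prod_eq_zero (Finset.mem_univ j)
    simp
    ring
  induction a using Fin.cases with
  | zero =>
    induction b using Fin.cases with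
    | zero => simp [cr_zero_52, sum_pm]
    | succ j =>
      rw [if_neg (Fin.succ_ne_zero j).symm, ← hone j]
      apply Finset.sum_congr rfl
      intro v _
      rw [cr_zero_52, one_mul]
  | succ i =>
    induction b using Fin.cases with
    | zero =>
      rw [if_neg (Fin.succ_ne_zero i), ← hone i]
      apply Finset.sum_congr rfl
      intro v _
      rw [cr_zero_52, mul_one]
    | succ j =>
      have h1 : ∀ v : V n, pm q v * (cr52 q v i.succ * cr52 q v j.succ) =
          pm q v * ∏ k, (fun k (b : Bool) =>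
            (if k = i then (if b then (1 : ℝ) else 0) - q k else 1) *
            (if k = j then (if b then (1 : ℝ) else 0) - q k else 1)) k (v k) := by
        intro v
        rw [cr_succ_52, cr_succ_52, ← Finset.prod_mul_distrib]
      rw [Finset.sum_congr rfl (fun v _ => h1 v), sum_pm_prod_52 q (fun k (b : Bool) =>
            (if k = i then (if b then (1 : ℝ) else 0) - q k else 1) *
            (if k = j then (if b then (1 : ℝ) else 0) - q k else 1))]
      by_cases hij : i = j
      · subst hij
        rw [if_pos rfl, Finset.prod_eq_single i]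
        · simp
          ring
        · intro k _ hk
          simp [hk]
        · intro h
          exact absurd (Finset.mem_univ i) h
      · rw [if_neg (fun h => hij (Fin.succ_injective _ h))]
        apply Finset.prod_eq_zero (Finset.mem_univ i)
        simp [hij]
        ring

private theorem det_mat_52 {n : ℕ} (q : Fin n → ℝ) (s : Fin (n + 1) → V n) :
    (mat s).det = ∑ σ : Equiv.Perm (Fin (n + 1)), ((Equiv.Perm.sign σ : ℤ) : ℝ) *
      ∏ i, cr52 q (s i) (σ i) := by
  have h1 : (mat s).det = (Matrix.of fun i => cr52 q (s i)).det := by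
    rw [← Matrix.det_transpose (mat s), ← Matrix.det_transpose (Matrix.of fun i => cr52 q (s i))]
    apply Matrix.det_eq_of_forall_row_eq_smul_add_const (Fin.cons 0 q : Fin (n + 1) → ℝ) 0 (by simp)
    intro i j
    induction i using Fin.cases with
    | zero => simp [mat, row, cr52]
    | succ i => simp [mat, row, cr52]
  rw [h1, ← Matrix.det_transpose, Matrix.det_apply']
  rfl

theorem sum_det_sq {n : ℕ} (q : Fin n → ℝ) :
    ∑ s : Fin (n + 1) → V n, (mat s).det ^ 2 * ∏ i, pm q (s i) =
      (n + 1).factorial * ∏ j, q j * (1 - q j) := by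
  set d : Fin (n + 1) → ℝ := Fin.cons 1 (fun j => q j * (1 - q j)) with hd
  have h1 : ∀ s : Fin (n + 1) → V n, (mat s).det ^ 2 * ∏ i, pm q (s i) =
      ∑ σ : Equiv.Perm (Fin (n + 1)), ∑ τ : Equiv.Perm (Fin (n + 1)),
        (((Equiv.Perm.sign σ : ℤ) : ℝ) * ((Equiv.Perm.sign τ : ℤ) : ℝ)) *
        ∏ i, (fun i (v : V n) => pm q v * (cr52 q v (σ i) * cr52 q v (τ i))) i (s i) := by
    intro s
    rw [sq, det_mat_52 q s, Finset.sum_mul_sum, Finset.sum_mul]
    apply Finset.sum_congr rfl
    intro σ _
    rw [Finset.sum_mul]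
    apply Finset.sum_congr rfl
    intro τ _
    rw [Finset.prod_mul_distrib, Finset.prod_mul_distrib]
    ring
  rw [Finset.sum_congr rfl (fun s _ => h1 s), Finset.sum_comm]
  have h2 : ∀ σ : Equiv.Perm (Fin (n + 1)), ∑ s : Fin (n + 1) → V n,
      ∑ τ : Equiv.Perm (Fin (n + 1)),
        (((Equiv.Perm.sign σ : ℤ) : ℝ) * ((Equiv.Perm.sign τ : ℤ) : ℝ)) *
        ∏ i, (fun i (v : V n) => pm q v * (cr52 q v (σ i) * cr52 q v (τ i))) i (s i) =
      ∏ i, d i := by
    intro σ
    rw [Finset.sum_comm]
    have h3 : ∀ τ : Equiv.Perm (Fin (n + 1)), ∑ s : Fin (n + 1) → V n,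
        (((Equiv.Perm.sign σ : ℤ) : ℝ) * ((Equiv.Perm.sign τ : ℤ) : ℝ)) *
        ∏ i, (fun i (v : V n) => pm q v * (cr52 q v (σ i) * cr52 q v (τ i))) i (s i) =
        if τ = σ then ∏ i, d i else 0 := by
      intro τ
      rw [← Finset.mul_sum,
        prod_sum_52 (fun i (v : V n) => pm q v * (cr52 q v (σ i) * cr52 q v (τ i)))]
      rw [Finset.prod_congr rfl (fun i _ => cov_52 q (σ i) (τ i))]
      by_cases h : τ = σ
      · subst h
        rw [if_pos rfl]
        have h4 : (((Equiv.Perm.sign τ : ℤ) : ℝ) * ((Equiv.Perm.sign τ : ℤ) : ℝ)) = 1 := by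
          rcases Int.units_eq_one_or (Equiv.Perm.sign τ) with h5 | h5 <;> simp [h5]
        rw [h4, one_mul]
        simp only [if_true]
        exact Equiv.prod_comp τ d
      · rw [if_neg h]
        obtain ⟨i, hi⟩ : ∃ i, τ i ≠ σ i := by
          by_contra hcon
          push Not at hcon
          exact h (Equiv.ext hcon)
        rw [Finset.prod_eq_zero (Finset.mem_univ i) (if_neg (fun h => hi h.symm)), mul_zero]
    rw [Finset.sum_congr rfl (fun τ _ => h3 τ), Finset.sum_ite_eq' ]
    simp
  rw [Finset.sum_congr rfl (fun σ _ => h2 σ), Finset.sum_const, Finset.card_univ,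
    Fintype.card_perm, Fintype.card_fin, nsmul_eq_mul, Fin.prod_univ_succ]
  simp [hd]

end Pool.Agent.Helper80.RT
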