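import Pool.Agent.Helper80.RT.Defs
import Mathlib

/-!
# Block RT-EX: every inner point of the cube is in some cell of the lower hull

PROOF. Let `0 < z i < 1`, `zz = Fin.cons 1 z : Fin (n + 1) → ℝ`, and `F ℓ = ∑ k, zz k * ℓ k` (the value of `ℓ` at `z`). With the weights
`w v = ∏ i, if v i then z i else 1 - z i > 0`: `∑ v, w v = 1`, `∑ v, w v • row v = zz` (`Finset.prod_univ_sum`, `Fintype.piFinset`; the same sums are
needed in other blocks), so `F ℓ = ∑ v, w v * ev ℓ v`.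
Let `D = {ℓ | (∀ v, ev ℓ v ≤ H v) ∧ F ℓ₀ ≤ F ℓ}`, where `ℓ₀` is a feasible constant function (`ℓ₀ = Fin.cons b 0`, `b = min H`). `D` is closed
and bounded: `ev ℓ v ≤ H v` and `w v * ev ℓ v ≥ F ℓ₀ - ∑_{u ≠ v} w u * H u`, so all `|ev ℓ v|` are bounded, and `ℓ 0 = ev ℓ (false vertex)`,
`ℓ (j + 1) = ev ℓ (unit vector j) - ℓ 0`. So `F` has a maximum on the compact set `D` (`IsCompact.exists_isMaxOn`,
`Metric.isCompact_of_isClosed_isBounded`), at `ℓ`. Let `S = tie H ℓ ∈ cells H`.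
If `z ∉ convexHull ℝ (vx '' S)` (a compact convex set: `Set.Finite.isCompact_convexHull`; `Set.Finite.isClosed_convexHull`), there are a continuous linear `f` and `u` with
`f a < u` for `a` in the hull and `u < f z` (`geometric_hahn_banach_closed_point`). Let `m` be the affine function `x ↦ f x - u` as a vector
`m : Fin (n + 1) → ℝ` (`m 0 = -u`, `m (j + 1) = f (Pi.single j 1)`; `ev m v = f (vx v) - u`, `F m = f z - u > 0`). For small `ε > 0` the function
`ℓ + ε m` satisfies `ev (ℓ + ε m) v ≤ H v` for all `v` (for `v ∈ S` since `ev m v < 0`, for `v ∉ S` since `ev ℓ v < H v`; finitely many `v`), and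
`F (ℓ + ε m) > F ℓ`: contradiction.
-/

set_option autoImplicit false

namespace Pool.Agent.Helper80.RT

open Finset MeasureTheory
open Pool.Agent.Helper80.CT (vx cubeA cubeK Tri)
open scoped ENNReal

/-- The weights of the point `z`. -/
private noncomputable def w24 {n : ℕ} (z : Fin n → ℝ) (v : V n) : ℝ :=
  ∏ i, if v i then z i else 1 - z i

private theorem w24_pos {n : ℕ} (z : Fin n → ℝ) (hz : ∀ i, 0 < z i ∧ z i < 1) (v : V n) :
    0 < w24 z v := by
  unfold w24
  refine Finset.prod_pos fun i _ => ?_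
  split_ifs
  · exact (hz i).1
  · linarith [(hz i).2]

private theorem w24_sum {n : ℕ} (z : Fin n → ℝ) : ∑ v, w24 z v = 1 := by
  have h := Finset.prod_univ_sum (t := fun _ : Fin n => (univ : Finset Bool))
    (f := fun i b => if b then z i else 1 - z i)
  rw [Fintype.piFinset_univ] at h
  unfold w24
  rw [← h]
  refine Finset.prod_eq_one fun i _ => ?_
  simp

private theorem w24_vx {n : ℕ} (z : Fin n → ℝ) (j : Fin n) :
    ∑ v, w24 z v * vx v j = z j := by
  classical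
  have h := Finset.prod_univ_sum (t := fun _ : Fin n => (univ : Finset Bool))
    (f := fun i b => (if b then z i else 1 - z i) * (if i = j then (if b then (1 : ℝ) else 0) else 1))
  rw [Fintype.piFinset_univ] at h
  have h1 : ∀ v : V n, ∏ i, ((if v i then z i else 1 - z i) *
      (if i = j then (if v i then (1 : ℝ) else 0) else 1)) = w24 z v * vx v j := by
    intro v
    rw [Finset.prod_mul_distrib]
    unfold w24
    congr 1
    rw [Finset.prod_ite_eq']
    simp [vx]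
  calc ∑ v, w24 z v * vx v j = ∑ v : V n, ∏ i, ((if v i then z i else 1 - z i) *
        (if i = j then (if v i then (1 : ℝ) else 0) else 1)) :=
        Finset.sum_congr rfl fun v _ => (h1 v).symm
    _ = ∏ i, ∑ b : Bool, ((if b then z i else 1 - z i) *
        (if i = j then (if b then (1 : ℝ) else 0) else 1)) := h.symm
    _ = z j := by
        have h2 : ∀ i, ∑ b : Bool, ((if b then z i else 1 - z i) *
            (if i = j then (if b then (1 : ℝ) else 0) else 1)) = if i = j then z j else 1 := by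
          intro i
          by_cases hij : i = j
          · subst hij
            simp
          · simp [hij]
        rw [Finset.prod_congr rfl fun i _ => h2 i, Finset.prod_ite_eq']
        simp

private theorem w24_vec {n : ℕ} (z : Fin n → ℝ) : ∑ v, w24 z v • vx v = z := by
  funext j
  rw [Finset.sum_apply]
  exact w24_vx z j

/-- The value at `z`. -/
private noncomputable def F24 {n : ℕ} (z : Fin n → ℝ) (ℓ : Fin (n + 1) → ℝ) : ℝ :=
  ∑ v, w24 z v * ev ℓ v

private theorem ev24_cont {n : ℕ} (v : V n) : Continuous fun ℓ : Fin (n + 1) → ℝ => ev ℓ v := by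
  unfold ev
  fun_prop

private theorem F24_cont {n : ℕ} (z : Fin n → ℝ) : Continuous (F24 z) := by
  unfold F24
  exact continuous_finset_sum _ fun v _ => continuous_const.mul (ev24_cont v)

private theorem ev24_add {n : ℕ} (ℓ m : Fin (n + 1) → ℝ) (ε : ℝ) (v : V n) :
    ev (ℓ + ε • m) v = ev ℓ v + ε * ev m v := by
  unfold ev
  rw [Finset.mul_sum, ← Finset.sum_add_distrib]
  refine Finset.sum_congr rfl fun k _ => ?_
  simp only [Pi.add_apply, Pi.smul_apply, smul_eq_mul]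
  ring

private theorem F24_add {n : ℕ} (z : Fin n → ℝ) (ℓ m : Fin (n + 1) → ℝ) (ε : ℝ) :
    F24 z (ℓ + ε • m) = F24 z ℓ + ε * F24 z m := by
  unfold F24
  rw [Finset.mul_sum, ← Finset.sum_add_distrib]
  refine Finset.sum_congr rfl fun v _ => ?_
  rw [ev24_add]
  ring

/-- The coordinates of `ℓ` are bounded by its values at the vertices. -/
private theorem coord24 {n : ℕ} (ℓ : Fin (n + 1) → ℝ) (B : V n → ℝ) (hB : ∀ v, |ev ℓ v| ≤ B v)
    (k : Fin (n + 1)) : |ℓ k| ≤ 2 * ∑ v, B v := by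
  classical
  have hB0 : ∀ v, 0 ≤ B v := fun v => (abs_nonneg _).trans (hB v)
  have hle : ∀ v, B v ≤ ∑ v, B v := fun v =>
    Finset.single_le_sum (f := B) (fun u _ => hB0 u) (Finset.mem_univ v)
  have h0 : ev ℓ (fun _ => false) = ℓ 0 := by
    unfold ev row
    rw [Fin.sum_univ_succ]
    simp [vx]
  have hs0 : |ℓ 0| ≤ ∑ v, B v := by
    rw [← h0]
    exact (hB _).trans (hle _)
  have hS : 0 ≤ ∑ v, B v := Finset.sum_nonneg fun v _ => hB0 v
  refine Fin.cases ?_ (fun j => ?_) k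
  · linarith
  · have h1 : ev ℓ (fun i => decide (i = j)) = ℓ 0 + ℓ j.succ := by
      unfold ev row
      rw [Fin.sum_univ_succ]
      simp [vx]
    have h2 : ℓ j.succ = ev ℓ (fun i => decide (i = j)) - ℓ 0 := by
      rw [h1]
      ring
    rw [h2]
    have h3 := (hB (fun i => decide (i = j))).trans (hle _)
    calc |ev ℓ (fun i => decide (i = j)) - ℓ 0| ≤ |ev ℓ (fun i => decide (i = j))| + |ℓ 0| :=
          abs_sub _ _
      _ ≤ 2 * ∑ v, B v := by linarith

private theorem max24 {n : ℕ} (H : V n → ℝ) (z : Fin n → ℝ) (hz : ∀ i, 0 < z i ∧ z i < 1) :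
    ∃ ℓ : Fin (n + 1) → ℝ, (∀ v, ev ℓ v ≤ H v) ∧
      ∀ m : Fin (n + 1) → ℝ, (∀ v, ev m v ≤ H v) → F24 z m ≤ F24 z ℓ := by
  classical
  obtain ⟨b, hb⟩ : ∃ b : ℝ, ∀ v, b ≤ H v := by
    refine ⟨-∑ v, |H v|, fun v => ?_⟩
    have h1 : |H v| ≤ ∑ v, |H v| :=
      Finset.single_le_sum (f := fun v => |H v|) (fun u _ => abs_nonneg _) (Finset.mem_univ v)
    linarith [neg_abs_le (H v)]
  obtain ⟨ℓ₀, hℓ₀⟩ : ∃ ℓ₀ : Fin (n + 1) → ℝ, ∀ v, ev ℓ₀ v ≤ H v := by
    refine ⟨Fin.cons b 0, fun v => ?_⟩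
    rw [ev_cons]
    simpa using hb v
  obtain ⟨D, hD⟩ : ∃ D : Set (Fin (n + 1) → ℝ), ∀ ℓ, ℓ ∈ D ↔ (∀ v, ev ℓ v ≤ H v) ∧
      F24 z ℓ₀ ≤ F24 z ℓ := ⟨{ℓ | (∀ v, ev ℓ v ≤ H v) ∧ F24 z ℓ₀ ≤ F24 z ℓ}, fun _ => Iff.rfl⟩
  have hclosed : IsClosed D := by
    have e : D = (⋂ v, {ℓ | ev ℓ v ≤ H v}) ∩ {ℓ | F24 z ℓ₀ ≤ F24 z ℓ} := by
      ext ℓ
      simp [hD]
    rw [e]
    exact (isClosed_iInter fun v => isClosed_le (ev24_cont v) continuous_const).inter
      (isClosed_le continuous_const (F24_cont z))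
  have hlow : ∀ ℓ ∈ D, ∀ v, (F24 z ℓ₀ - ∑ u ∈ univ.erase v, w24 z u * H u) / w24 z v ≤
      ev ℓ v := by
    intro ℓ hℓ v
    obtain ⟨h1, h2⟩ := (hD ℓ).1 hℓ
    rw [div_le_iff₀ (w24_pos z hz v)]
    have h3 : F24 z ℓ = w24 z v * ev ℓ v + ∑ u ∈ univ.erase v, w24 z u * ev ℓ u := by
      unfold F24
      rw [Finset.add_sum_erase univ (fun u => w24 z u * ev ℓ u) (Finset.mem_univ v)]
    have h4 : ∑ u ∈ univ.erase v, w24 z u * ev ℓ u ≤ ∑ u ∈ univ.erase v, w24 z u * H u :=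
      Finset.sum_le_sum fun u _ => mul_le_mul_of_nonneg_left (h1 u) (w24_pos z hz u).le
    linarith
  obtain ⟨C, hC⟩ : ∃ C : ℝ, ∀ ℓ ∈ D, ∀ k, |ℓ k| ≤ C := by
    refine ⟨_, fun ℓ hℓ k => coord24 ℓ (fun v =>
      |(F24 z ℓ₀ - ∑ u ∈ univ.erase v, w24 z u * H u) / w24 z v| + |H v|) (fun v => ?_) k⟩
    have h1 := hlow ℓ hℓ v
    have h2 := ((hD ℓ).1 hℓ).1 v
    rw [abs_le]
    constructor
    · have := neg_abs_le ((F24 z ℓ₀ - ∑ u ∈ univ.erase v, w24 z u * H u) / w24 z v)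
      have h3 := abs_nonneg (H v)
      linarith
    · have := le_abs_self (H v)
      have h3 := abs_nonneg ((F24 z ℓ₀ - ∑ u ∈ univ.erase v, w24 z u * H u) / w24 z v)
      linarith
  have hbdd : Bornology.IsBounded D := by
    refine (Metric.isBounded_closedBall (x := (0 : Fin (n + 1) → ℝ)) (r := C)).subset ?_
    intro ℓ hℓ
    rw [mem_closedBall_zero_iff]
    have hC0 : 0 ≤ C := (abs_nonneg _).trans (hC ℓ hℓ 0)
    rw [pi_norm_le_iff_of_nonneg hC0]
    intro k
    rw [Real.norm_eq_abs]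
    exact hC ℓ hℓ k
  have hcomp : IsCompact D := Metric.isCompact_of_isClosed_isBounded hclosed hbdd
  have hne : D.Nonempty := ⟨ℓ₀, (hD ℓ₀).2 ⟨hℓ₀, le_rfl⟩⟩
  obtain ⟨ℓ, hℓ, hmax⟩ := hcomp.exists_isMaxOn hne (F24_cont z).continuousOn
  refine ⟨ℓ, ((hD ℓ).1 hℓ).1, fun m hm => ?_⟩
  by_cases h : F24 z ℓ₀ ≤ F24 z m
  · exact hmax ((hD m).2 ⟨hm, h⟩)
  · exact (le_of_lt (not_le.1 h)).trans ((hD ℓ).1 hℓ).2

theorem cells_ex {n : ℕ} (H : V n → ℝ) (z : Fin n → ℝ) (hz : ∀ i, 0 < z i ∧ z i < 1) :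
    ∃ S ∈ cells H, z ∈ convexHull ℝ (vx '' (S : Set (V n))) := by
  classical
  obtain ⟨ℓ, hℓ, hmax⟩ := max24 H z hz
  refine ⟨tie H ℓ, mem_cells.2 ⟨ℓ, hℓ, rfl⟩, ?_⟩
  by_contra hnot
  have hfin : (vx '' ((tie H ℓ : Finset (V n)) : Set (V n))).Finite :=
    (Finset.finite_toSet _).image _
  obtain ⟨f, u, hfu, hzu⟩ := geometric_hahn_banach_closed_point (convex_convexHull ℝ _)
    (hfin.isClosed_convexHull ℝ) hnot
  obtain ⟨g, hg⟩ : ∃ g : Fin n → ℝ, ∀ j, g j = f (fun k => if j = k then 1 else 0) :=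
    ⟨_, fun _ => rfl⟩
  have hfg : ∀ x : Fin n → ℝ, f x = ∑ j, x j * g j := by
    intro x
    have h := LinearMap.pi_apply_eq_sum_univ f.toLinearMap x
    simp only [ContinuousLinearMap.coe_coe, smul_eq_mul] at h
    rw [h]
    exact Finset.sum_congr rfl fun j _ => by rw [hg]
  obtain ⟨m, hm⟩ : ∃ m : Fin (n + 1) → ℝ, ∀ v : V n, ev m v = f (vx v) - u := by
    refine ⟨Fin.cons (-u) g, fun v => ?_⟩
    rw [ev_cons, hfg]
    ring
  have hFm : F24 z m = f z - u := by
    unfold F24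
    have h1 : ∀ v : V n, w24 z v * ev m v = w24 z v * f (vx v) - w24 z v * u := fun v => by
      rw [hm]
      ring
    rw [Finset.sum_congr rfl fun v _ => h1 v, Finset.sum_sub_distrib, ← Finset.sum_mul, w24_sum,
      one_mul]
    congr 1
    calc ∑ v, w24 z v * f (vx v) = f (∑ v, w24 z v • vx v) := by
          rw [map_sum]
          exact Finset.sum_congr rfl fun v _ => by rw [map_smul, smul_eq_mul]
      _ = f z := by rw [w24_vec]
  have hev : ∀ v, ∀ᶠ ε in nhdsWithin (0 : ℝ) (Set.Ioi 0), ev ℓ v + ε * ev m v ≤ H v := by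
    intro v
    by_cases hv : v ∈ tie H ℓ
    · filter_upwards [self_mem_nhdsWithin] with ε hε
      have hε0 : (0 : ℝ) < ε := hε
      have h1 : f (vx v) < u := hfu _ (subset_convexHull ℝ _ (Set.mem_image_of_mem _ hv))
      have h2 : ε * ev m v ≤ 0 := by
        rw [hm]
        exact mul_nonpos_of_nonneg_of_nonpos hε0.le (by linarith)
      linarith [hℓ v]
    · have hlt : ev ℓ v < H v := lt_of_le_of_ne (hℓ v) (fun h => hv (mem_tie.2 h.symm))
      have ht : Filter.Tendsto (fun ε : ℝ => ev ℓ v + ε * ev m v) (nhdsWithin (0 : ℝ) (Set.Ioi 0))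
          (nhds (ev ℓ v)) := by
        have hc : Continuous fun ε : ℝ => ev ℓ v + ε * ev m v := by fun_prop
        have h := hc.tendsto 0
        simp only [zero_mul, add_zero] at h
        exact h.mono_left nhdsWithin_le_nhds
      exact (ht.eventually_lt_const hlt).mono fun ε h => h.le
  obtain ⟨ε, hε, hε0⟩ := ((Filter.eventually_all.2 hev).and self_mem_nhdsWithin).exists
  have hε1 : (0 : ℝ) < ε := hε0
  have h1 := hmax (ℓ + ε • m) (fun v => by
    rw [ev24_add]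
    exact hε v)
  rw [F24_add, hFm] at h1
  have h2 : 0 < ε * (f z - u) := mul_pos hε1 (by linarith)
  linarith

end Pool.Agent.Helper80.RT
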