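import Pool.Agent.Helper80.RT.Defs

/-!
# Block RT-GAM: one-dimensional integrals

PROOF. Substitution `t = exp x` (`lintegral_image_eq_lintegral_abs_deriv_mul` for `Real.exp` on `Set.univ`, `Real.range_exp`; or for `lint_dens`, `lint_dens_tail`
directly by the antiderivative `- exp (- exp x)`).
* `lint_dens`: `∫ exp (x - exp x) dx = ∫_0^∞ exp (-t) dt = 1`.
* `lint_dens_tail`: `∫_y^∞ exp (x - exp x) dx = exp (- exp y)` (only `≤` is needed).
* `lint_gamma`: `∫ exp ((n + 1) b) exp (- exp b * R) db = ∫_0^∞ t ^ n exp (- R t) dt = n! / R ^ (n + 1)` (`Real.integral_rpow_mul_exp_neg_mul_Ioi`,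
  `Real.Gamma_nat_eq_factorial`). Only `≤` is needed.
-/

set_option autoImplicit false

namespace Pool.Agent.Helper80.RT

open Finset MeasureTheory
open Pool.Agent.Helper80.CT (vx cubeA cubeK Tri)
open scoped ENNReal

private theorem sub4 (s : Set ℝ) (hs : MeasurableSet s) (g : ℝ → ℝ≥0∞) :
    ∫⁻ x in s, ENNReal.ofReal (Real.exp x) * g (Real.exp x) = ∫⁻ t in Real.exp '' s, g t := by
  rw [lintegral_image_eq_lintegral_abs_deriv_mul hs
    (fun x _ => (Real.hasDerivAt_exp x).hasDerivWithinAt) Real.exp_injective.injOn]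
  refine lintegral_congr fun x => ?_
  rw [abs_of_pos (Real.exp_pos x)]

private theorem of4 {s : Set ℝ} {f : ℝ → ℝ} {c : ℝ} (hs : MeasurableSet s)
    (hf : ∀ t ∈ s, 0 ≤ f t) (h : ∫ t in s, f t = c) (hc : 0 < c) :
    ∫⁻ t in s, ENNReal.ofReal (f t) = ENNReal.ofReal c := by
  have hi : Integrable f (volume.restrict s) := by
    by_contra hcon
    rw [integral_undef hcon] at h
    exact hc.ne h
  rw [← h, ofReal_integral_eq_lintegral_ofReal hi]
  exact (ae_restrict_iff' hs).2 (Filter.Eventually.of_forall hf)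

private theorem dens_eq4 (x : ℝ) :
    dens x = ENNReal.ofReal (Real.exp x) * ENNReal.ofReal (Real.exp (-Real.exp x)) := by
  unfold dens
  rw [← ENNReal.ofReal_mul (Real.exp_pos x).le, ← Real.exp_add, sub_eq_add_neg]

theorem lint_dens : ∫⁻ h : ℝ, dens h = 1 := by
  have h1 : ∫⁻ h : ℝ, dens h = ∫⁻ x in (Set.univ : Set ℝ),
      ENNReal.ofReal (Real.exp x) * (fun t => ENNReal.ofReal (Real.exp (-t))) (Real.exp x) := by
    rw [Measure.restrict_univ]
    exact lintegral_congr fun x => dens_eq4 x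
  rw [h1.trans (sub4 _ MeasurableSet.univ (fun t => ENNReal.ofReal (Real.exp (-t)))),
    Set.image_univ, Real.range_exp]
  refine (of4 measurableSet_Ioi (fun t _ => (Real.exp_pos _).le) (integral_exp_neg_Ioi 0)
      (Real.exp_pos _)).trans ?_
  simp

theorem lint_dens_tail (y : ℝ) : ∫⁻ h in Set.Ici y, dens h ≤ ENNReal.ofReal (Real.exp (-Real.exp y)) := by
  have h1 : ∫⁻ h in Set.Ici y, dens h = ∫⁻ x in Set.Ici y,
      ENNReal.ofReal (Real.exp x) * (fun t => ENNReal.ofReal (Real.exp (-t))) (Real.exp x) :=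
    lintegral_congr fun x => dens_eq4 x
  have h2 : Real.exp '' Set.Ici y ⊆ Set.Ici (Real.exp y) := by
    rintro _ ⟨x, hx, rfl⟩
    exact Real.exp_le_exp.2 hx
  rw [h1.trans (sub4 _ measurableSet_Ici (fun t => ENNReal.ofReal (Real.exp (-t))))]
  refine (lintegral_mono_set h2).trans (le_of_eq ?_)
  rw [← setLIntegral_congr Ioi_ae_eq_Ici]
  exact of4 measurableSet_Ioi (fun t _ => (Real.exp_pos _).le) (integral_exp_neg_Ioi _)
      (Real.exp_pos _)

theorem lint_gamma (n : ℕ) {R : ℝ} (hR : 0 < R) :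
    ∫⁻ b : ℝ, ENNReal.ofReal (Real.exp ((n + 1) * b) * Real.exp (-(Real.exp b * R))) ≤
      ENNReal.ofReal (n.factorial / R ^ (n + 1)) := by
  have h1 : ∫⁻ b : ℝ, ENNReal.ofReal (Real.exp ((n + 1) * b) * Real.exp (-(Real.exp b * R))) =
      ∫⁻ x in (Set.univ : Set ℝ), ENNReal.ofReal (Real.exp x) *
        (fun t : ℝ => ENNReal.ofReal (t ^ ((n : ℝ) + 1 - 1) * Real.exp (-(R * t)))) (Real.exp x) := by
    rw [Measure.restrict_univ]
    refine lintegral_congr fun x => ?_
    simp only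
    rw [← ENNReal.ofReal_mul (Real.exp_pos x).le, ← mul_assoc]
    congr 2
    · rw [add_sub_cancel_right, Real.rpow_natCast, ← Real.exp_nat_mul, ← Real.exp_add]
      congr 1
      ring
    · rw [mul_comm R]
  have h2 := Real.integral_rpow_mul_exp_neg_mul_Ioi (a := (n : ℝ) + 1) (r := R) (by positivity) hR
  rw [Real.Gamma_nat_eq_factorial] at h2
  have h3 : (1 / R) ^ ((n : ℝ) + 1) * (n.factorial : ℝ) = n.factorial / R ^ (n + 1) := by
    have h4 : (n : ℝ) + 1 = ((n + 1 : ℕ) : ℝ) := by push_cast; rfl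
    rw [h4, Real.rpow_natCast, one_div, inv_pow]
    ring
  rw [h3] at h2
  rw [h1.trans (sub4 _ MeasurableSet.univ
      (fun t : ℝ => ENNReal.ofReal (t ^ ((n : ℝ) + 1 - 1) * Real.exp (-(R * t))))),
    Set.image_univ, Real.range_exp]
  refine (of4 measurableSet_Ioi (fun t ht => ?_) h2 (by positivity)).le
  exact mul_nonneg (Real.rpow_nonneg (le_of_lt ht) _) (Real.exp_pos _).le

end Pool.Agent.Helper80.RT
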