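import Pool.Agent.Helper80.RT.Defs

/-!
# Block RT-GEO: from the abstract to the geometric triangulation

PROOF. `T₁ = T.filter (card = n + 1)`, `T' = T₁.image (fun S => S.image vx)`. Everything is in `CT/Geo.lean`, `CT/Hull.lean` (`cover88`, `inter88`, `sub_cube88`, `Tri.affine`, `vx_inj`; copy the private
lemmas). `S.image vx` has `n + 1` elements (`vx_inj`); affine independence: `Tri.affine` with `f` the inverse image of the points; the union: `cover88` and
`sub_cube88`; the intersections: `inter88` (`⊆`), `convexHull_mono` (`⊇`), and `S.image vx ∩ S'.image vx = (S ∩ S').image vx` (`Finset.image_inter`).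
-/

set_option autoImplicit false

namespace Pool.Agent.Helper80.RT

open Finset MeasureTheory
open Pool.Agent.Helper80.CT (vx cubeA cubeK Tri)
open scoped ENNReal

open Pool.Agent.Helper80.CT (mem_hull null_hull)

private theorem inter61 {n : ℕ} {T : Finset (Finset (Fin n → Bool))} (hT : Tri (cubeA (Fin n)) (cubeK (Fin n)) T)
    {S S' : Finset (Fin n → Bool)} (hS : S ∈ T) (hS' : S' ∈ T) :
    convexHull ℝ (vx '' (S : Set (Fin n → Bool))) ∩ convexHull ℝ (vx '' (S' : Set (Fin n → Bool))) ⊆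
      convexHull ℝ (vx '' ((S ∩ S' : Finset (Fin n → Bool)) : Set (Fin n → Bool))) := by
  rintro x ⟨hx, hx'⟩
  obtain ⟨t, ht0, htS, ht⟩ := (mem_hull S x).1 hx
  obtain ⟨t', ht0', htS', ht'⟩ := (mem_hull S' x).1 hx'
  have h := hT.un S hS S' hS' t t' ht0 htS ht0' htS' (ht.trans ht'.symm)
  refine (mem_hull (S ∩ S') x).2 ⟨t, ht0, fun p hp => ?_, ht⟩
  by_cases h1 : p ∈ S
  · rw [h]
    exact htS' p fun h2 => hp (Finset.mem_inter.2 ⟨h1, h2⟩)
  · exact htS p h1

private theorem sub_cube61 {n : ℕ} (S : Finset (Fin n → Bool)) :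
    convexHull ℝ (vx '' (S : Set (Fin n → Bool))) ⊆ Set.Icc 0 1 := by
  refine convexHull_min ?_ (convex_Icc _ _)
  rintro _ ⟨p, _, rfl⟩
  constructor
  · intro i
    simp only [vx, Pi.zero_apply]
    split_ifs
    · exact zero_le_one
    · exact le_refl _
  · intro i
    simp only [vx, Pi.one_apply]
    split_ifs
    · exact le_refl _
    · exact zero_le_one

private theorem closure_int61 (n : ℕ) :
    closure (interior (Set.Icc (0 : Fin n → ℝ) 1)) = Set.Icc (0 : Fin n → ℝ) 1 := by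
  have h1 : (Set.Icc (0 : Fin n → ℝ) 1) = Set.pi Set.univ fun _ => Set.Icc (0 : ℝ) 1 := by
    rw [← Set.pi_univ_Icc]
    rfl
  rw [h1, interior_pi_set Set.finite_univ, closure_pi_set]
  refine Set.pi_congr rfl fun i _ => ?_
  rw [interior_Icc, closure_Ioo zero_ne_one]

private theorem open_null61 {n : ℕ} {U V : Set (Fin n → ℝ)} (hU : IsOpen U) (h : U ⊆ V)
    (hV : MeasureTheory.volume V = 0) : U = ∅ := by
  by_contra hne
  have h1 : 0 < MeasureTheory.volume U := hU.measure_pos _ (Set.nonempty_iff_ne_empty.2 hne)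
  have h2 := MeasureTheory.measure_mono (μ := MeasureTheory.volume) h
  rw [hV] at h2
  exact absurd h1 (not_lt.2 h2)

private theorem cover61 {n : ℕ} {T : Finset (Finset (Fin n → Bool))} (hT : Tri (cubeA (Fin n)) (cubeK (Fin n)) T) :
    Set.Icc (0 : Fin n → ℝ) 1 ⊆ ⋃ S ∈ T.filter (fun S => S.card = n + 1),
      convexHull ℝ (vx '' (S : Set (Fin n → Bool))) := by
  have hcov : Set.Icc (0 : Fin n → ℝ) 1 ⊆ ⋃ S ∈ T, convexHull ℝ (vx '' (S : Set (Fin n → Bool))) := by
    intro x hx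
    obtain ⟨S, hS, t, h1, h2, h3⟩ := hT.ex ((1 : ℝ), x) ⟨rfl, fun i => ⟨hx.1 i, hx.2 i⟩⟩
    exact Set.mem_biUnion hS ((mem_hull S x).2 ⟨t, h1, h2, h3⟩)
  obtain ⟨U, hU⟩ : ∃ U, U = ⋃ S ∈ T.filter (fun S => S.card = n + 1),
      convexHull ℝ (vx '' (S : Set (Fin n → Bool))) := ⟨_, rfl⟩
  have hUc : IsClosed U := by
    rw [hU]
    exact Set.Finite.isClosed_biUnion (Finset.finite_toSet _) fun S _ =>
      ((S.finite_toSet.image vx).isClosed_convexHull ℝ)
  have hnull : MeasureTheory.volume (⋃ S ∈ T.filter (fun S => ¬ S.card = n + 1),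
      convexHull ℝ (vx '' (S : Set (Fin n → Bool)))) = 0 := by
    refine (MeasureTheory.measure_biUnion_null_iff (Finset.countable_toSet _)).2 fun S hS => ?_
    obtain ⟨h1, h2⟩ := Finset.mem_filter.1 (Finset.mem_coe.1 hS)
    have h3 := hT.card_le S h1
    exact null_hull S (by omega)
  have hempty : Uᶜ ∩ interior (Set.Icc (0 : Fin n → ℝ) 1) = ∅ := by
    refine open_null61 (hUc.isOpen_compl.inter isOpen_interior) ?_ hnull
    rintro x ⟨hx1, hx2⟩
    obtain ⟨S, hS, hxS⟩ := Set.mem_iUnion₂.1 (hcov (interior_subset hx2))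
    refine Set.mem_biUnion (x := S) (Finset.mem_filter.2 ⟨hS, fun hc => hx1 ?_⟩) hxS
    rw [hU]
    exact Set.mem_biUnion (x := S) (Finset.mem_filter.2 ⟨hS, hc⟩) hxS
  rw [← hU, ← closure_int61, hUc.closure_subset_iff]
  intro x hx
  by_contra hc
  have : x ∈ Uᶜ ∩ interior (Set.Icc (0 : Fin n → ℝ) 1) := ⟨hc, hx⟩
  rw [hempty] at this
  exact this

open Classical in
theorem geo2 {n : ℕ} {T : Finset (Finset (V n))} (hT : Tri (cubeA (Fin n)) (cubeK (Fin n)) T) :
    ∃ T' : Finset (Finset (Fin n → ℝ)), T'.card ≤ (T.filter fun S => S.card = n + 1).card ∧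
      (∀ S ∈ T', S.card = n + 1 ∧ AffineIndependent ℝ (fun x : S => (x : Fin n → ℝ)) ∧
        ∀ v ∈ S, ∀ i : Fin n, v i = 0 ∨ v i = 1) ∧
      (⋃ S ∈ T', convexHull ℝ (↑S : Set (Fin n → ℝ))) = Set.Icc (0 : Fin n → ℝ) 1 ∧
      (∀ S ∈ T', ∀ S' ∈ T',
        convexHull ℝ (↑S : Set (Fin n → ℝ)) ∩ convexHull ℝ (↑S' : Set (Fin n → ℝ)) =
          convexHull ℝ (↑(S ∩ S') : Set (Fin n → ℝ))) := by
  classical
  have key : ∀ S, S ∈ (T.filter fun S => S.card = n + 1).image (fun S => S.image vx) →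
      ∃ A ∈ T, A.card = n + 1 ∧ A.image vx = S := by
    intro S hS
    obtain ⟨A, hA, hAS⟩ := Finset.mem_image.1 hS
    obtain ⟨h1, h2⟩ := Finset.mem_filter.1 hA
    exact ⟨A, h1, h2, hAS⟩
  refine ⟨(T.filter fun S => S.card = n + 1).image (fun S => S.image vx), Finset.card_image_le,
    ?_, ?_, ?_⟩
  · intro S hS
    obtain ⟨A, hA, hA1, rfl⟩ := key S hS
    refine ⟨?_, ?_, ?_⟩
    · rw [Finset.card_image_of_injective A Helper80.CT.vx_inj, hA1]
    · have hf : ∀ x : (A.image vx : Finset (Fin n → ℝ)), ∃ p ∈ A, vx p = (x : Fin n → ℝ) :=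
        fun x => Finset.mem_image.1 x.2
      choose f hfA hf using hf
      have h1 := hT.affine A hA f (fun x y hxy => by
        apply Subtype.ext
        rw [← hf x, ← hf y, hxy]) hfA
      have h2 : (fun i => vx (f i)) =
          fun x : (A.image vx : Finset (Fin n → ℝ)) => (x : Fin n → ℝ) := by
        funext x
        exact hf x
      rw [h2] at h1
      exact h1
    · intro v hv i
      obtain ⟨p, _, rfl⟩ := Finset.mem_image.1 hv
      unfold vx
      split_ifs
      · exact Or.inr rfl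
      · exact Or.inl rfl
  · refine Set.Subset.antisymm (Set.iUnion₂_subset fun S hS => ?_) fun x hx => ?_
    · obtain ⟨A, _, _, rfl⟩ := key S hS
      rw [Finset.coe_image]
      exact sub_cube61 A
    · obtain ⟨A, hA, hxA⟩ := Set.mem_iUnion₂.1 (cover61 hT hx)
      refine Set.mem_iUnion₂.2 ⟨A.image vx, Finset.mem_image_of_mem _ ?_, ?_⟩
      · exact Finset.mem_filter.2 (Finset.mem_filter.1 hA)
      · rw [Finset.coe_image]
        exact hxA
  · intro S hS S' hS'
    obtain ⟨A, hA, _, rfl⟩ := key S hS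
    obtain ⟨B, hB, _, rfl⟩ := key S' hS'
    rw [Finset.coe_inter, Finset.coe_image, Finset.coe_image]
    refine Set.Subset.antisymm ((inter61 hT hA hB).trans (convexHull_mono ?_)) (Set.subset_inter
      (convexHull_mono Set.inter_subset_left) (convexHull_mono Set.inter_subset_right))
    rw [Finset.coe_inter]
    exact Set.image_inter_subset _ _ _

end Pool.Agent.Helper80.RT
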