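import Pool.Agent.Helper80.CT.Hull

/-!
# Project RT: from the abstract to the geometric triangulation, with the number of the maximal cells

The same as `CT/Geo.lean` (block CT-GEO by helper88), with `N ≤` the number of the maximal cells.
-/

set_option autoImplicit false

namespace Pool.Agent.Helper80.RT

open Pool.Agent.Helper80.CT (vx cubeA cubeK Tri mem_hull null_hull)

open Finset

private theorem interg3 {n : ℕ} {T : Finset (Finset (Fin n → Bool))} (hT : Tri (cubeA (Fin n)) (cubeK (Fin n)) T)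
    {S S' : Finset (Fin n → Bool)} (hS : S ∈ T) (hS' : S' ∈ T) :
    convexHull ℝ (vx '' (S : Set (Fin n → Bool))) ∩ convexHull ℝ (vx '' (S' : Set (Fin n → Bool))) ⊆
      convexHull ℝ (vx '' ((S ∩ S' : Finset (Fin n → Bool)) : Set (Fin n → Bool))) := by
  rintro x ⟨hx, hx'⟩
  obtain ⟨t, ht0, htS, ht⟩ := (mem_hull S x).1 hx
  obtain ⟨t', ht0', htS', ht'⟩ := (mem_hull S' x).1 hx'
  have h := hT.un S hS S' hS' t t' ht0 htS ht0' htS' (ht.trans ht'.symm)
  refine (mem_hull (S ∩ S') x).2 ⟨t, ht0, fun p hp => ?_, ht⟩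
  by_cases h1 : p ∈ S
  · rw [h]
    exact htS' p fun h2 => hp (Finset.mem_inter.2 ⟨h1, h2⟩)
  · exact htS p h1

private theorem sub_cubeg3 {n : ℕ} (S : Finset (Fin n → Bool)) :
    convexHull ℝ (vx '' (S : Set (Fin n → Bool))) ⊆ Set.Icc 0 1 := by
  refine convexHull_min ?_ (convex_Icc _ _)
  rintro _ ⟨p, _, rfl⟩
  constructor
  · intro i
    simp only [vx, Pi.zero_apply]
    split_ifs
    · exact zero_le_one
    · exact le_refl _
  · intro i
    simp only [vx, Pi.one_apply]
    split_ifs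
    · exact le_refl _
    · exact zero_le_one

private theorem closure_intg3 (n : ℕ) :
    closure (interior (Set.Icc (0 : Fin n → ℝ) 1)) = Set.Icc (0 : Fin n → ℝ) 1 := by
  have h1 : (Set.Icc (0 : Fin n → ℝ) 1) = Set.pi Set.univ fun _ => Set.Icc (0 : ℝ) 1 := by
    rw [← Set.pi_univ_Icc]
    rfl
  rw [h1, interior_pi_set Set.finite_univ, closure_pi_set]
  refine Set.pi_congr rfl fun i _ => ?_
  rw [interior_Icc, closure_Ioo zero_ne_one]

private theorem open_nullg3 {n : ℕ} {U V : Set (Fin n → ℝ)} (hU : IsOpen U) (h : U ⊆ V)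
    (hV : MeasureTheory.volume V = 0) : U = ∅ := by
  by_contra hne
  have h1 : 0 < MeasureTheory.volume U := hU.measure_pos _ (Set.nonempty_iff_ne_empty.2 hne)
  have h2 := MeasureTheory.measure_mono (μ := MeasureTheory.volume) h
  rw [hV] at h2
  exact absurd h1 (not_lt.2 h2)

private theorem coverg3 {n : ℕ} {T : Finset (Finset (Fin n → Bool))} (hT : Tri (cubeA (Fin n)) (cubeK (Fin n)) T) :
    Set.Icc (0 : Fin n → ℝ) 1 ⊆ ⋃ S ∈ T.filter (fun S => S.card = n + 1),
      convexHull ℝ (vx '' (S : Set (Fin n → Bool))) := by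
  have hcov : Set.Icc (0 : Fin n → ℝ) 1 ⊆ ⋃ S ∈ T, convexHull ℝ (vx '' (S : Set (Fin n → Bool))) := by
    intro x hx
    obtain ⟨S, hS, t, h1, h2, h3⟩ := hT.ex ((1 : ℝ), x) ⟨rfl, fun i => ⟨hx.1 i, hx.2 i⟩⟩
    exact Set.mem_biUnion hS ((mem_hull S x).2 ⟨t, h1, h2, h3⟩)
  obtain ⟨U, hU⟩ : ∃ U, U = ⋃ S ∈ T.filter (fun S => S.card = n + 1),
      convexHull ℝ (vx '' (S : Set (Fin n → Bool))) := ⟨_, rfl⟩
  have hUc : IsClosed U := by
    rw [hU]
    exact Set.Finite.isClosed_biUnion (Finset.finite_toSet _) fun S _ =>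
      ((S.finite_toSet.image vx).isClosed_convexHull ℝ)
  have hnull : MeasureTheory.volume (⋃ S ∈ T.filter (fun S => ¬ S.card = n + 1),
      convexHull ℝ (vx '' (S : Set (Fin n → Bool)))) = 0 := by
    refine (MeasureTheory.measure_biUnion_null_iff (Finset.countable_toSet _)).2 fun S hS => ?_
    obtain ⟨h1, h2⟩ := Finset.mem_filter.1 (Finset.mem_coe.1 hS)
    have h3 := hT.card_le S h1
    exact null_hull S (by omega)
  have hempty : Uᶜ ∩ interior (Set.Icc (0 : Fin n → ℝ) 1) = ∅ := by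
    refine open_nullg3 (hUc.isOpen_compl.inter isOpen_interior) ?_ hnull
    rintro x ⟨hx1, hx2⟩
    obtain ⟨S, hS, hxS⟩ := Set.mem_iUnion₂.1 (hcov (interior_subset hx2))
    refine Set.mem_biUnion (x := S) (Finset.mem_filter.2 ⟨hS, fun hc => hx1 ?_⟩) hxS
    rw [hU]
    exact Set.mem_biUnion (x := S) (Finset.mem_filter.2 ⟨hS, hc⟩) hxS
  rw [← hU, ← closure_intg3, hUc.closure_subset_iff]
  intro x hx
  by_contra hc
  have : x ∈ Uᶜ ∩ interior (Set.Icc (0 : Fin n → ℝ) 1) := ⟨hc, hx⟩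
  rw [hempty] at this
  exact this

theorem geo3 {n : ℕ} {T : Finset (Finset (Fin n → Bool))} (hT : Tri (cubeA (Fin n)) (cubeK (Fin n)) T) :
    ∃ (N : ℕ) (v : Fin N → Fin (n + 1) → Fin n → ℝ), N ≤ (T.filter (fun S => S.card = n + 1)).card ∧
      (∀ s, AffineIndependent ℝ (v s)) ∧ (∀ s i j, v s i j = 0 ∨ v s i j = 1) ∧
      (⋃ s, convexHull ℝ (Set.range (v s))) = Set.Icc 0 1 ∧
      (∀ s t, s ≠ t → Disjoint (interior (convexHull ℝ (Set.range (v s))))
        (interior (convexHull ℝ (Set.range (v t))))) ∧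
      ∀ s t, convexHull ℝ (Set.range (v s)) ∩ convexHull ℝ (Set.range (v t)) =
        convexHull ℝ (Set.range (v s) ∩ Set.range (v t)) := by
  obtain ⟨T₁, hT₁⟩ : ∃ T₁, T₁ = T.filter (fun S => S.card = n + 1) := ⟨_, rfl⟩
  have hmem' : ∀ S, S ∈ T₁ → S ∈ T ∧ S.card = n + 1 := by
    intro S hS
    rw [hT₁] at hS
    exact Finset.mem_filter.1 hS
  have hmem : ∀ S : T₁, S.1 ∈ T ∧ S.1.card = n + 1 := fun S => hmem' S.1 S.2
  let e : Fin T₁.card ≃ T₁ := T₁.equivFin.symm
  let f : (S : T₁) → Fin (n + 1) ≃ S.1 := fun S => (S.1.equivFinOfCardEq (hmem S).2).symm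
  let v : Fin T₁.card → Fin (n + 1) → Fin n → ℝ := fun s i => vx ((f (e s) i : Fin n → Bool))
  have hr : ∀ s, Set.range (v s) = vx '' ((e s).1 : Set (Fin n → Bool)) := by
    intro s
    ext x
    constructor
    · rintro ⟨i, rfl⟩
      exact ⟨_, (f (e s) i).2, rfl⟩
    · rintro ⟨p, hp, rfl⟩
      refine ⟨(f (e s)).symm ⟨p, hp⟩, ?_⟩
      show vx ((f (e s) ((f (e s)).symm ⟨p, hp⟩) : Fin n → Bool)) = vx p
      rw [Equiv.apply_symm_apply]
  have hinter : ∀ s t, convexHull ℝ (Set.range (v s)) ∩ convexHull ℝ (Set.range (v t)) ⊆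
      convexHull ℝ (vx '' (((e s).1 ∩ (e t).1 : Finset (Fin n → Bool)) : Set (Fin n → Bool))) := by
    intro s t
    rw [hr, hr]
    exact interg3 hT (hmem _).1 (hmem _).1
  refine ⟨T₁.card, v, ?_, ?_, ?_, ?_, ?_, ?_⟩
  · rw [hT₁]
  · intro s
    refine hT.affine (e s).1 (hmem (e s)).1 (fun i => ((f (e s) i : Fin n → Bool))) ?_ ?_
    · intro i j hij
      exact (f (e s)).injective (Subtype.ext hij)
    · intro i
      exact (f (e s) i).2
  · intro s i j
    show vx _ j = 0 ∨ vx _ j = 1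
    unfold vx
    split_ifs
    · exact Or.inr rfl
    · exact Or.inl rfl
  · refine Set.Subset.antisymm (Set.iUnion_subset fun s => ?_) fun x hx => ?_
    · rw [hr]
      exact sub_cubeg3 _
    · obtain ⟨S, hS, hxS⟩ := Set.mem_iUnion₂.1 (coverg3 hT hx)
      rw [← hT₁] at hS
      refine Set.mem_iUnion.2 ⟨e.symm ⟨S, hS⟩, ?_⟩
      rw [hr, Equiv.apply_symm_apply]
      exact hxS
  · intro s t hst
    rw [Set.disjoint_iff_inter_eq_empty]
    refine open_nullg3 (isOpen_interior.inter isOpen_interior)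
      ((Set.inter_subset_inter interior_subset interior_subset).trans (hinter s t)) (null_hull _ ?_)
    have h1 := (hmem (e s)).2
    have h2 := (hmem (e t)).2
    have h3 : ((e s).1 ∩ (e t).1).card ≤ (e s).1.card := Finset.card_le_card Finset.inter_subset_left
    have h4 : ((e s).1 ∩ (e t).1).card ≠ n + 1 := by
      intro h5
      have h6 : (e s).1 ∩ (e t).1 = (e s).1 :=
        Finset.eq_of_subset_of_card_le Finset.inter_subset_left (by rw [h5, h1])
      have h7 : (e s).1 ∩ (e t).1 = (e t).1 :=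
        Finset.eq_of_subset_of_card_le Finset.inter_subset_right (by rw [h5, h2])
      exact hst (e.injective (Subtype.ext (h6.symm.trans h7)))
    omega
  · intro s t
    refine Set.Subset.antisymm ((hinter s t).trans (convexHull_mono ?_)) (Set.subset_inter
      (convexHull_mono Set.inter_subset_left) (convexHull_mono Set.inter_subset_right))
    rw [hr, hr, Finset.coe_inter]
    exact Set.image_inter_subset _ _ _

end Pool.Agent.Helper80.RT
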