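import Pool.Agent.Helper80.RT.Defs

/-!
# Block RT-NULL: almost all heights are generic

PROOF. For every `S` for which there is `g ≠ 0` with support in `S` and `∑ g v • row v = 0` choose such a `g` (`Classical.choose`). The set
`{H | ∑ v, g v * H v = 0}` is a proper subspace of `V n → ℝ`, so it is a null set (`MeasureTheory.Measure.addHaar_submodule`; the kernel of a linear
functional, which is not everything since `g ≠ 0`: take `H = g`). The union of these null sets over the finitely many `S` is a null set
(`ae_all_iff`, `Filter.eventually_all`), and `H` outside is generic: if `H v = ev ℓ v` on `S` and `S` is dependent with the chosen `g` then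
`∑ g v * H v = ∑ g v * ev ℓ v = 0` (linear in `∑ g v • row v`), contradiction.
-/

set_option autoImplicit false

namespace Pool.Agent.Helper80.RT

open Finset MeasureTheory
open Pool.Agent.Helper80.CT (vx cubeA cubeK Tri)
open scoped ENNReal

theorem generic_ae (n : ℕ) : ∀ᵐ H : V n → ℝ, Generic H := by
  have key : ∀ S : Finset (V n), ∀ᵐ H : V n → ℝ, ∀ ℓ : Fin (n + 1) → ℝ,
      (∀ v ∈ S, H v = ev ℓ v) → ∀ g : V n → ℝ, (∀ v, v ∉ S → g v = 0) →
      ∑ v, g v • row v = 0 → g = 0 := by
    intro S
    by_cases hS : ∀ g : V n → ℝ, (∀ v, v ∉ S → g v = 0) → ∑ v, g v • row v = 0 → g = 0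
    · exact Filter.Eventually.of_forall fun H ℓ _ => hS
    · push Not at hS
      obtain ⟨g, hg1, hg2, hg3⟩ := hS
      obtain ⟨φ, hφ⟩ : ∃ φ : (V n → ℝ) →ₗ[ℝ] ℝ, ∀ H, φ H = ∑ v, g v * H v := by
        refine ⟨∑ v, g v • LinearMap.proj v, fun H => ?_⟩
        simp
      have hker : LinearMap.ker φ ≠ ⊤ := by
        intro h
        apply hg3
        have h1 : φ g = 0 := by
          have h2 : g ∈ LinearMap.ker φ := by
            rw [h]
            exact Submodule.mem_top
          exact LinearMap.mem_ker.1 h2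
        rw [hφ, Finset.sum_eq_zero_iff_of_nonneg fun v _ => mul_self_nonneg (g v)] at h1
        funext v
        exact mul_self_eq_zero.1 (h1 v (mem_univ v))
      have h0 : volume ((LinearMap.ker φ : Submodule ℝ (V n → ℝ)) : Set (V n → ℝ)) = 0 :=
        Measure.addHaar_submodule volume _ hker
      have h1 : ∀ᵐ H : V n → ℝ, H ∉ ((LinearMap.ker φ : Submodule ℝ (V n → ℝ)) : Set (V n → ℝ)) :=
        measure_eq_zero_iff_ae_notMem.1 h0
      filter_upwards [h1] with H hH ℓ hℓ
      exfalso
      apply hH
      change φ H = 0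
      rw [hφ]
      have e1 : ∀ v, g v * H v = g v * ev ℓ v := by
        intro v
        by_cases hv : v ∈ S
        · rw [hℓ v hv]
        · rw [hg1 v hv, zero_mul, zero_mul]
      have e2 : ∑ v, g v * ev ℓ v = ∑ k, (∑ v, g v • row v) k * ℓ k := by
        unfold ev
        simp only [Finset.mul_sum, Finset.sum_apply, Pi.smul_apply, smul_eq_mul, Finset.sum_mul]
        rw [Finset.sum_comm]
        refine Finset.sum_congr rfl fun k _ => Finset.sum_congr rfl fun v _ => ?_
        ring
      rw [Finset.sum_congr rfl fun v _ => e1 v, e2, hg2]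
      simp
  have h2 : ∀ᵐ H : V n → ℝ, ∀ S : Finset (V n), ∀ ℓ : Fin (n + 1) → ℝ,
      (∀ v ∈ S, H v = ev ℓ v) → ∀ g : V n → ℝ, (∀ v, v ∉ S → g v = 0) →
      ∑ v, g v • row v = 0 → g = 0 := ae_all_iff.2 key
  filter_upwards [h2] with H hH
  exact hH

end Pool.Agent.Helper80.RT
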