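import Pool.Agent.Helper80.RT.Gam

/-!
# Block RT-ONE: the probability of one simplex, change of variables

PROOF. Let `P v ↔ v ∈ Set.range s`. Split `V n → ℝ` into the coordinates in `P` and not in `P` (`MeasureTheory.volume_preserving_piEquivPiSubtypeProd`), rename
the first ones by `s` (`Equiv.ofInjective s hs`, `MeasureTheory.volume_measurePreserving_piCongrLeft`). So the integral is
`∫⁻ y : Fin (n + 1) → ℝ, ∫⁻ K : {v // ¬ P v} → ℝ, [..]`. If `H` is in `ev1 s` with the affine function `ℓ` then `(mat s).mulVec ℓ = y`, so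
`ℓ = (mat s)⁻¹.mulVec y =: L y`, and `ev (L y) v ≤ K v` for `v` not in the range. So the integrand is at most
`(∏ i, dens (y i)) * ∏_{v ∉ P} (indicator of [ev (L y) v, ∞)) (K v) * dens (K v)`; the inner integral is a product of integrals over `ℝ` (Tonelli for finite products:
`MeasureTheory.lintegral_fintype_prod_eq_prod`-like lemma, or the measure of a box for the measures with density; induction if necessary), at most
`∏_{v ∉ P} exp (- exp (ev (L y) v))` (`lint_dens_tail`). Since `dens (y i) = exp (ev (L y) (s i)) * exp (- exp (ev (L y) (s i)))`, the integral is at most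
`∫⁻ y, f (L y)` with `f ℓ = ofReal ((∏ i, exp (ev ℓ (s i))) * exp (- ∑ v, exp (ev ℓ v)))`, and this is `|det (mat s)| * ∫⁻ ℓ, f ℓ`
(`Real.map_matrix_volume_pi_eq_smul_volume_pi` for `(mat s)⁻¹`, whose determinant is `(det (mat s))⁻¹`, or `lintegral_comp`-like lemmas; `f` is continuous).
-/

set_option autoImplicit false

namespace Pool.Agent.Helper80.RT

open Finset MeasureTheory
open Pool.Agent.Helper80.CT (vx cubeA cubeK Tri)
open scoped ENNReal

private theorem tonelli_fin26 : ∀ (n : ℕ) (f : Fin n → ℝ → ℝ≥0∞), (∀ i, Measurable (f i)) →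
    ∫⁻ x : Fin n → ℝ, ∏ i, f i (x i) = ∏ i, ∫⁻ t : ℝ, f i t := by
  intro n
  induction n with
  | zero =>
      intro f _
      simp only [Finset.univ_eq_empty, Finset.prod_empty, lintegral_const, one_mul]
      rw [volume_pi, Measure.pi_univ]
      simp
  | succ n ih =>
      intro f hf
      have hmp := volume_preserving_piFinSuccAbove (fun _ : Fin (n + 1) => ℝ) 0
      have hg1 : Measurable (f 0) := hf 0
      have hg2 : Measurable fun y : Fin n → ℝ => ∏ i, f i.succ (y i) :=
        Finset.measurable_prod _ fun i _ => (hf i.succ).comp (measurable_pi_apply i)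
      have h1 : ∀ x : Fin (n + 1) → ℝ, ∏ i, f i (x i) =
          (fun z : ℝ × (Fin n → ℝ) => f 0 z.1 * ∏ i, f i.succ (z.2 i))
            (MeasurableEquiv.piFinSuccAbove (fun _ : Fin (n + 1) => ℝ) 0 x) := by
        intro x
        rw [Fin.prod_univ_succ]
        rfl
      rw [lintegral_congr h1]
      have hgm : Measurable fun z : ℝ × (Fin n → ℝ) => f 0 z.1 * ∏ i, f i.succ (z.2 i) :=
        (hg1.comp measurable_fst).mul (hg2.comp measurable_snd)
      rw [hmp.lintegral_comp hgm]
      have h2 : ∫⁻ z : ℝ × (Fin n → ℝ), f 0 z.1 * ∏ i, f i.succ (z.2 i) =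
          (∫⁻ t : ℝ, f 0 t) * ∫⁻ y : Fin n → ℝ, ∏ i, f i.succ (y i) :=
        lintegral_prod_mul hg1.aemeasurable hg2.aemeasurable
      rw [h2, ih (fun i => f i.succ) fun i => hf i.succ, Fin.prod_univ_succ]

private theorem tonelli26 {ι : Type} [Fintype ι] (f : ι → ℝ → ℝ≥0∞) (hf : ∀ i, Measurable (f i)) :
    ∫⁻ x : ι → ℝ, ∏ i, f i (x i) = ∏ i, ∫⁻ t : ℝ, f i t := by
  classical
  obtain ⟨e⟩ := Fintype.truncEquivFin ι |>.nonempty
  have hmp := volume_measurePreserving_piCongrLeft (fun _ : ι => ℝ) e.symm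
  have hm : Measurable fun x : ι → ℝ => ∏ i, f i (x i) :=
    Finset.measurable_prod _ fun i _ => (hf i).comp (measurable_pi_apply i)
  rw [← hmp.lintegral_comp hm]
  have h1 : ∀ y : Fin (Fintype.card ι) → ℝ,
      ∏ i, f i (MeasurableEquiv.piCongrLeft (fun _ : ι => ℝ) e.symm y i) = ∏ j, f (e.symm j) (y j) := by
    intro y
    rw [← Equiv.prod_comp e.symm]
    refine Finset.prod_congr rfl fun j _ => ?_
    congr 1
    exact Equiv.piCongrLeft_apply_apply (fun _ : ι => ℝ) e.symm y j
  rw [lintegral_congr h1, tonelli_fin26 _ (fun j => f (e.symm j)) fun j => hf _]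
  exact Equiv.prod_comp e.symm fun i => ∫⁻ t : ℝ, f i t

/-- restriction of the heights to `s` and to the rest preserves the volume -/
private theorem split26 {n : ℕ} (s : Fin (n + 1) → V n) (hs : Function.Injective s) :
    MeasurePreserving (fun H : V n → ℝ =>
      (((fun i => H (s i)), fun v => H v.1) : (Fin (n + 1) → ℝ) × ({v // ¬ v ∈ Set.range s} → ℝ))) volume volume := by
  classical
  let _ : Fintype {v // v ∈ Set.range s} := Subtype.fintype fun v => v ∈ Set.range s
  have h1 := volume_preserving_piEquivPiSubtypeProd (fun _ : V n => ℝ) (fun v => v ∈ Set.range s)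
  have h2 : MeasurePreserving
      (MeasurableEquiv.piCongrLeft (fun _ : {v // v ∈ Set.range s} => ℝ) (Equiv.ofInjective s hs)) volume volume :=
    volume_measurePreserving_piCongrLeft (fun _ : {v // v ∈ Set.range s} => ℝ) (Equiv.ofInjective s hs)
  have h3 := h2.symm
  have h4 : MeasurePreserving (id : ({v // ¬ v ∈ Set.range s} → ℝ) → _) volume volume := MeasurePreserving.id _
  have h5 := (h3.prod h4).comp h1
  have h6 : (fun H : V n → ℝ =>
      (((fun i => H (s i)), fun v => H v.1) : (Fin (n + 1) → ℝ) × ({v // ¬ v ∈ Set.range s} → ℝ))) =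
      (Prod.map (MeasurableEquiv.piCongrLeft (fun _ : {v // v ∈ Set.range s} => ℝ) (Equiv.ofInjective s hs)).symm id) ∘
        (MeasurableEquiv.piEquivPiSubtypeProd (fun _ : V n => ℝ) (fun v => v ∈ Set.range s)) := by
    funext H
    rfl
  rw [h6]
  exact h5

private theorem meas_ev26 {n : ℕ} {α : Type} [MeasurableSpace α] (v : V n) {L : α → Fin (n + 1) → ℝ}
    (hL : Measurable L) : Measurable fun y => ev (L y) v := by
  unfold ev
  exact Finset.measurable_sum _ fun k _ => ((measurable_pi_iff.1 hL) k).const_mul _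

private theorem meas_f26 {n : ℕ} (s : Fin (n + 1) → V n) :
    Measurable fun ℓ : Fin (n + 1) → ℝ =>
      ENNReal.ofReal ((∏ i, Real.exp (ev ℓ (s i))) * Real.exp (-∑ v, Real.exp (ev ℓ v))) := by
  refine ENNReal.measurable_ofReal.comp (Measurable.mul ?_ ?_)
  · exact Finset.measurable_prod _ fun i _ => Real.measurable_exp.comp (meas_ev26 (s i) measurable_id)
  · exact Real.measurable_exp.comp (Finset.measurable_sum _ fun v _ =>
      Real.measurable_exp.comp (meas_ev26 v measurable_id)).neg

private theorem split_prod26 {n : ℕ} (s : Fin (n + 1) → V n) (hs : Function.Injective s) {M : Type} [CommMonoid M]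
    (g : V n → M) : ∏ v, g v = (∏ i, g (s i)) * ∏ v : {v // ¬ v ∈ Set.range s}, g v.1 := by
  classical
  rw [← Finset.prod_filter_mul_prod_filter_not univ (fun v => v ∈ Set.range s) g]
  have h1 : univ.filter (fun v => v ∈ Set.range s) = univ.image s := by
    ext v
    simp
  have h2 : ∏ v ∈ univ.filter (fun v => ¬ v ∈ Set.range s), g v = ∏ v : {v // ¬ v ∈ Set.range s}, g v.1 :=
    Finset.prod_subtype _ (fun v => by simp) g
  rw [h2, h1, Finset.prod_image hs.injOn]

theorem one_simplex {n : ℕ} (s : Fin (n + 1) → V n) (hs : Function.Injective s) (hd : (mat s).det ≠ 0) :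
    ∫⁻ H : V n → ℝ, (ev1 s).indicator (fun H => ∏ v, dens (H v)) H ≤
      ENNReal.ofReal |(mat s).det| * ∫⁻ ℓ : Fin (n + 1) → ℝ,
        ENNReal.ofReal ((∏ i, Real.exp (ev ℓ (s i))) * Real.exp (-∑ v, Real.exp (ev ℓ v))) := by
  classical
  obtain ⟨L, hL⟩ : ∃ L : (Fin (n + 1) → ℝ) → (Fin (n + 1) → ℝ), L = fun y => (mat s)⁻¹.mulVec y := ⟨_, rfl⟩
  have hu : IsUnit (mat s).det := isUnit_iff_ne_zero.2 hd
  have hL1 : ∀ ℓ, L ((mat s).mulVec ℓ) = ℓ := by
    intro ℓ
    rw [hL]
    simp only [Matrix.mulVec_mulVec, Matrix.nonsing_inv_mul _ hu, Matrix.one_mulVec]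
  have hL2 : ∀ y, (mat s).mulVec (L y) = y := by
    intro y
    rw [hL]
    simp only [Matrix.mulVec_mulVec, Matrix.mul_nonsing_inv _ hu, Matrix.one_mulVec]
  have hLm : Measurable L := by
    rw [hL]
    exact (Continuous.matrix_mulVec continuous_const continuous_id).measurable
  obtain ⟨f, hf⟩ : ∃ f : (Fin (n + 1) → ℝ) → ℝ≥0∞, f = fun ℓ =>
      ENNReal.ofReal ((∏ i, Real.exp (ev ℓ (s i))) * Real.exp (-∑ v, Real.exp (ev ℓ v))) := ⟨_, rfl⟩
  have hfm : Measurable f := by
    rw [hf]
    exact meas_f26 s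
  obtain ⟨G, hG⟩ : ∃ G : (Fin (n + 1) → ℝ) × ({v // ¬ v ∈ Set.range s} → ℝ) → ℝ≥0∞, G = fun z =>
      (∏ i, dens (z.1 i)) * ∏ v : {v // ¬ v ∈ Set.range s}, (Set.Ici (ev (L z.1) v.1)).indicator dens (z.2 v) := ⟨_, rfl⟩
  have hGm : Measurable G := by
    rw [hG]
    refine Measurable.mul ?_ ?_
    · exact Finset.measurable_prod _ fun i _ => dens_meas.comp ((measurable_pi_apply i).comp measurable_fst)
    · refine Finset.measurable_prod _ fun v _ => ?_
      have h1 : (fun z : (Fin (n + 1) → ℝ) × ({v // ¬ v ∈ Set.range s} → ℝ) =>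
          (Set.Ici (ev (L z.1) v.1)).indicator dens (z.2 v)) =
          {z : (Fin (n + 1) → ℝ) × ({v // ¬ v ∈ Set.range s} → ℝ) | ev (L z.1) v.1 ≤ z.2 v}.indicator
            fun z => dens (z.2 v) := by
        funext z
        simp only [Set.indicator_apply, Set.mem_Ici, Set.mem_ofPred_eq]
      rw [h1]
      refine Measurable.indicator (dens_meas.comp ((measurable_pi_apply v).comp measurable_snd)) ?_
      exact measurableSet_le (meas_ev26 v.1 (hLm.comp measurable_fst)) ((measurable_pi_apply v).comp measurable_snd)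
  have hpt : ∀ H : V n → ℝ, (ev1 s).indicator (fun H => ∏ v, dens (H v)) H ≤ G ((fun i => H (s i)), fun v => H v.1) := by
    intro H
    refine Set.indicator_apply_le' (fun hH => ?_) (fun _ => zero_le)
    obtain ⟨ℓ, h1, h2⟩ := hH
    have h3 : L (fun i => H (s i)) = ℓ := by
      have h4 : (fun i => H (s i)) = (mat s).mulVec ℓ := by
        rw [mat_mulVec]
        funext i
        exact h2 i
      rw [h4, hL1]
    rw [hG]
    simp only [h3]
    rw [split_prod26 s hs fun v => dens (H v)]
    refine le_of_eq ?_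
    congr 1
    refine Finset.prod_congr rfl fun v _ => ?_
    rw [Set.indicator_of_mem]
    exact h1 v.1
  refine (lintegral_mono hpt).trans ?_
  have h7 : ∫⁻ H : V n → ℝ, G ((fun i => H (s i)), fun v => H v.1) = ∫⁻ z, G z :=
    (split26 s hs).lintegral_comp hGm
  rw [h7]
  have h8 : ∫⁻ z, G z = ∫⁻ y : Fin (n + 1) → ℝ, ∫⁻ K : {v // ¬ v ∈ Set.range s} → ℝ, G (y, K) :=
    lintegral_prod _ hGm.aemeasurable
  rw [h8]
  have h9 : ∀ y : Fin (n + 1) → ℝ, ∫⁻ K : {v // ¬ v ∈ Set.range s} → ℝ, G (y, K) ≤ f (L y) := by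
    intro y
    rw [hG]
    simp only
    rw [lintegral_const_mul]
    swap
    · exact Finset.measurable_prod _ fun v _ =>
        (dens_meas.indicator measurableSet_Ici).comp (measurable_pi_apply v)
    rw [tonelli26 (fun v : {v // ¬ v ∈ Set.range s} => (Set.Ici (ev (L y) v.1)).indicator dens)
      fun v => dens_meas.indicator measurableSet_Ici]
    have h10 : ∏ v : {v // ¬ v ∈ Set.range s}, ∫⁻ t : ℝ, (Set.Ici (ev (L y) v.1)).indicator dens t ≤
        ∏ v : {v // ¬ v ∈ Set.range s}, ENNReal.ofReal (Real.exp (-Real.exp (ev (L y) v.1))) := by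
      refine Finset.prod_le_prod' fun v _ => ?_
      rw [lintegral_indicator measurableSet_Ici]
      exact lint_dens_tail _
    refine (mul_le_mul_right h10 _).trans (le_of_eq ?_)
    have h11 : ∀ i, y i = ev (L y) (s i) := by
      intro i
      have := congrFun (hL2 y) i
      rw [mat_mulVec] at this
      exact this.symm
    have h12 : ∀ i, dens (y i) = ENNReal.ofReal (Real.exp (ev (L y) (s i)) * Real.exp (-Real.exp (ev (L y) (s i)))) := by
      intro i
      unfold dens
      rw [← Real.exp_add, ← h11 i, sub_eq_add_neg]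
    rw [Finset.prod_congr rfl fun i _ => h12 i]
    rw [← ENNReal.ofReal_prod_of_nonneg fun i _ => by positivity,
      ← ENNReal.ofReal_prod_of_nonneg fun i _ => by positivity, ← ENNReal.ofReal_mul (by positivity), hf]
    simp only
    congr 1
    rw [Finset.prod_mul_distrib, mul_assoc]
    congr 1
    rw [← Finset.sum_neg_distrib, Real.exp_sum]
    exact (split_prod26 s hs fun v => Real.exp (-Real.exp (ev (L y) v))).symm
  refine (lintegral_mono h9).trans (le_of_eq ?_)
  have h13 : ∫⁻ y, f (L y) = ∫⁻ ℓ, f ℓ ∂(Measure.map L volume) := (lintegral_map hfm hLm).symm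
  rw [h13]
  have h14 : L = Matrix.toLin' (mat s)⁻¹ := by
    rw [hL]
    funext y
    rw [Matrix.toLin'_apply]
  have h15 : ((mat s)⁻¹).det ≠ 0 := by
    rw [Matrix.det_nonsing_inv, Ring.inverse_eq_inv']
    exact inv_ne_zero hd
  rw [h14, Real.map_matrix_volume_pi_eq_smul_volume_pi h15, lintegral_smul_measure, smul_eq_mul, hf,
    Matrix.det_nonsing_inv, Ring.inverse_eq_inv', inv_inv]

end Pool.Agent.Helper80.RT
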