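import Pool.Agent.Helper80.RT.Gam

/-!
# Block RT-PP: integration over the constant term

PROOF. Write `ℓ = Fin.cons b p` (`MeasureTheory.volume_preserving_piFinSuccAbove (fun _ => ℝ) 0`, `Fin.insertNth_zero`, Tonelli). `ev (Fin.cons b p) v = b + p·v`
(`ev_cons`), `∏ i, exp (ev ℓ (s i)) = exp ((n + 1) b) * ∏ i, exp (p·s i)`, `∑ v, exp (ev ℓ v) = exp b * R`, `R = ∑ v, exp (p·v) = ∏ j, (1 + exp (p j)) > 0`
(`Finset.prod_univ_sum`, `Fintype.piFinset`). By `lint_gamma` the integral over `b` is at most `n! * ∏ i, (exp (p·s i) / R)` and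
`exp (p·v) / R = pm (fun j => lg (p j)) v` (factor by factor: `1 - lg x = 1 / (1 + exp x)`, `one_sub_lg`).
-/

set_option autoImplicit false

namespace Pool.Agent.Helper80.RT

open Finset MeasureTheory
open Pool.Agent.Helper80.CT (vx cubeA cubeK Tri)
open scoped ENNReal

private theorem sum67 {n : ℕ} (p : Fin n → ℝ) :
    ∑ v : V n, Real.exp (∑ j, vx v j * p j) = ∏ j, (1 + Real.exp (p j)) := by
  have h := Finset.prod_univ_sum (fun _ : Fin n => (univ : Finset Bool))
    (fun j (b : Bool) => if b then Real.exp (p j) else (1 : ℝ))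
  rw [Fintype.piFinset_univ] at h
  have h2 : ∏ j, (1 + Real.exp (p j)) = ∏ j : Fin n, ∑ b : Bool, (if b then Real.exp (p j) else (1 : ℝ)) := by
    refine Finset.prod_congr rfl fun j _ => ?_
    rw [Fintype.sum_bool]
    simp [add_comm]
  rw [h2, h]
  refine Finset.sum_congr rfl fun v _ => ?_
  rw [Real.exp_sum]
  refine Finset.prod_congr rfl fun j _ => ?_
  unfold vx
  cases v j <;> simp

private theorem pm67 {n : ℕ} (p : Fin n → ℝ) (v : V n) :
    pm (fun j => lg (p j)) v = Real.exp (∑ j, vx v j * p j) / ∏ j, (1 + Real.exp (p j)) := by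
  unfold pm
  rw [Real.exp_sum, ← Finset.prod_div_distrib]
  refine Finset.prod_congr rfl fun j _ => ?_
  rw [one_sub_lg]
  unfold lg vx
  cases v j <;> simp

private theorem meas67 {n : ℕ} (s : Fin (n + 1) → V n) : Measurable fun ℓ : Fin (n + 1) → ℝ =>
    ENNReal.ofReal ((∏ i, Real.exp (ev ℓ (s i))) * Real.exp (-∑ v, Real.exp (ev ℓ v))) := by
  unfold ev
  fun_prop

private theorem inner67 {n : ℕ} (s : Fin (n + 1) → V n) (p : Fin n → ℝ) :
    ∫⁻ b : ℝ, ENNReal.ofReal ((∏ i, Real.exp (ev (Fin.cons b p) (s i))) *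
        Real.exp (-∑ v, Real.exp (ev (Fin.cons b p) v))) ≤
      ENNReal.ofReal n.factorial * ENNReal.ofReal (∏ i, pm (fun j => lg (p j)) (s i)) := by
  obtain ⟨R, hR⟩ : ∃ R, R = ∏ j, (1 + Real.exp (p j)) := ⟨_, rfl⟩
  have hR0 : 0 < R := by
    rw [hR]
    exact Finset.prod_pos fun j _ => by positivity
  obtain ⟨A, hA⟩ : ∃ A, A = ∏ i, Real.exp (∑ j, vx (s i) j * p j) := ⟨_, rfl⟩
  have hA0 : 0 ≤ A := by
    rw [hA]
    exact Finset.prod_nonneg fun i _ => (Real.exp_pos _).le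
  have h1 : ∀ b : ℝ, ENNReal.ofReal ((∏ i, Real.exp (ev (Fin.cons b p) (s i))) *
        Real.exp (-∑ v, Real.exp (ev (Fin.cons b p) v))) =
      ENNReal.ofReal A * ENNReal.ofReal (Real.exp ((n + 1) * b) * Real.exp (-(Real.exp b * R))) := by
    intro b
    rw [← ENNReal.ofReal_mul hA0]
    congr 1
    have e1 : ∏ i, Real.exp (ev (Fin.cons b p) (s i)) = Real.exp ((n + 1) * b) * A := by
      rw [hA]
      have : Real.exp (((n : ℝ) + 1) * b) = ∏ _i : Fin (n + 1), Real.exp b := by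
        rw [Finset.prod_const, Finset.card_univ, Fintype.card_fin, ← Real.exp_nat_mul]
        push_cast
        rfl
      rw [this, ← Finset.prod_mul_distrib]
      refine Finset.prod_congr rfl fun i _ => ?_
      rw [ev_cons, Real.exp_add]
    have e2 : ∑ v : V n, Real.exp (ev (Fin.cons b p) v) = Real.exp b * R := by
      rw [hR, ← sum67, Finset.mul_sum]
      refine Finset.sum_congr rfl fun v _ => ?_
      rw [ev_cons, Real.exp_add]
    rw [e1, e2]
    ring
  rw [lintegral_congr h1, lintegral_const_mul _ (by fun_prop)]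
  refine (mul_le_mul' le_rfl (lint_gamma n hR0)).trans (le_of_eq ?_)
  rw [← ENNReal.ofReal_mul hA0, ← ENNReal.ofReal_mul (Nat.cast_nonneg _)]
  congr 1
  have h2 : ∏ i, pm (fun j => lg (p j)) (s i) = A / R ^ (n + 1) := by
    rw [hA]
    have : R ^ (n + 1) = ∏ _i : Fin (n + 1), R := by
      rw [Finset.prod_const, Finset.card_univ, Fintype.card_fin]
    rw [this, ← Finset.prod_div_distrib]
    refine Finset.prod_congr rfl fun i _ => ?_
    rw [pm67, hR]
  rw [h2]
  ring

theorem int_p {n : ℕ} (s : Fin (n + 1) → V n) :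
    ∫⁻ ℓ : Fin (n + 1) → ℝ,
        ENNReal.ofReal ((∏ i, Real.exp (ev ℓ (s i))) * Real.exp (-∑ v, Real.exp (ev ℓ v))) ≤
      ENNReal.ofReal n.factorial *
        ∫⁻ p : Fin n → ℝ, ENNReal.ofReal (∏ i, pm (fun j => lg (p j)) (s i)) := by
  have hmp := (volume_preserving_piFinSuccAbove (fun _ : Fin (n + 1) => ℝ) 0).symm
  have h1 := hmp.lintegral_comp_emb (MeasurableEquiv.piFinSuccAbove (fun _ : Fin (n + 1) => ℝ) 0).symm.measurableEmbedding
    (fun ℓ : Fin (n + 1) → ℝ =>
      ENNReal.ofReal ((∏ i, Real.exp (ev ℓ (s i))) * Real.exp (-∑ v, Real.exp (ev ℓ v))))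
  rw [← h1]
  have h2 : ∀ z : ℝ × (Fin n → ℝ), (MeasurableEquiv.piFinSuccAbove (fun _ : Fin (n + 1) => ℝ) 0).symm z =
      (Fin.cons z.1 z.2 : Fin (n + 1) → ℝ) := by
    intro z
    exact Fin.insertNth_zero' z.1 z.2
  rw [lintegral_congr fun z => by rw [h2 z]]
  have hm : Measurable fun z : ℝ × (Fin n → ℝ) => ENNReal.ofReal
      ((∏ i, Real.exp (ev (Fin.cons z.1 z.2 : Fin (n + 1) → ℝ) (s i))) *
        Real.exp (-∑ v, Real.exp (ev (Fin.cons z.1 z.2 : Fin (n + 1) → ℝ) v))) := by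
    have h3 := (meas67 s).comp (MeasurableEquiv.piFinSuccAbove (fun _ : Fin (n + 1) => ℝ) 0).symm.measurable
    convert h3 using 1
    funext z
    simp only [Function.comp_apply]
    rw [h2 z]
  rw [Measure.volume_eq_prod, lintegral_prod_symm _ hm.aemeasurable, ← lintegral_const_mul' _ _ ENNReal.ofReal_ne_top]
  exact lintegral_mono fun p => inner67 s p

end Pool.Agent.Helper80.RT
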