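import Mathlib

/-!
# Project RT: Tonelli for finite products
-/

set_option autoImplicit false

namespace Pool.Agent.Helper80.RT

open MeasureTheory
open scoped ENNReal

private theorem lint_prod_fin {n : ℕ} (f : Fin n → ℝ → ℝ≥0∞) (hf : ∀ i, Measurable (f i)) :
    ∫⁻ x : Fin n → ℝ, ∏ i, f i (x i) = ∏ i, ∫⁻ x, f i x := by
  induction n with
  | zero =>
    have h0 : (volume : Measure (Fin 0 → ℝ)) = Measure.dirac 0 := Measure.pi_of_empty _ 0
    simp [h0]
  | succ n ih =>
    have e := (volume_preserving_piFinSuccAbove (fun _ : Fin (n + 1) => ℝ) 0).symm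
    rw [← e.lintegral_comp_emb (MeasurableEquiv.measurableEmbedding _)]
    have h1 : ∀ y : ℝ × (Fin n → ℝ),
        (∏ i, f i (((MeasurableEquiv.piFinSuccAbove (fun _ : Fin (n + 1) => ℝ) 0).symm y) i)) =
          f 0 y.1 * ∏ i : Fin n, f i.succ (y.2 i) := by
      intro y
      rw [Fin.prod_univ_succ]
      rfl
    have h2 : Measurable fun x : Fin n → ℝ => ∏ i : Fin n, f i.succ (x i) :=
      Finset.measurable_prod _ fun i _ => (hf i.succ).comp (measurable_pi_apply i)
    rw [lintegral_congr h1]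
    have h3 : ∫⁻ y : ℝ × (Fin n → ℝ), f 0 y.1 * ∏ i : Fin n, f i.succ (y.2 i) =
        (∫⁻ x, f 0 x) * ∫⁻ x : Fin n → ℝ, ∏ i : Fin n, f i.succ (x i) :=
      lintegral_prod_mul (hf 0).aemeasurable h2.aemeasurable
    rw [h3, ih (fun i => f i.succ) (fun i => hf i.succ), Fin.prod_univ_succ]

/-- Tonelli for finite products -/
theorem lint_prod {ι : Type} [Fintype ι] (f : ι → ℝ → ℝ≥0∞) (hf : ∀ i, Measurable (f i)) :
    ∫⁻ x : ι → ℝ, ∏ i, f i (x i) = ∏ i, ∫⁻ x, f i x := by
  let e := (Fintype.equivFin ι).symm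
  have h1 := volume_measurePreserving_piCongrLeft (fun _ : ι => ℝ) e
  rw [← h1.lintegral_comp_emb (MeasurableEquiv.measurableEmbedding _)]
  have h2 : ∀ y : Fin (Fintype.card ι) → ℝ,
      (∏ i, f i ((MeasurableEquiv.piCongrLeft (fun _ : ι => ℝ) e y) i)) = ∏ k, f (e k) (y k) := by
    intro y
    rw [← Equiv.prod_comp e]
    refine Finset.prod_congr rfl fun k _ => ?_
    congr 1
    exact MeasurableEquiv.piCongrLeft_apply_apply (β := fun _ : ι => ℝ) e y k
  rw [lintegral_congr h2, lint_prod_fin (fun k => f (e k)) (fun k => hf (e k))]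
  exact Equiv.prod_comp e fun i => ∫⁻ x, f i x

end Pool.Agent.Helper80.RT
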