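import Pool.Agent.Helper80.RT.TriB
import Pool.Agent.Helper80.RT.NullB
import Pool.Agent.Helper80.RT.One
import Pool.Agent.Helper80.RT.Pp
import Pool.Agent.Helper80.RT.Cs
import Pool.Agent.Helper80.RT.Cnt
import Pool.Agent.Helper80.RT.Geo
import Pool.Agent.Helper80.RT.Prd

/-!
# Project RT: assembly

`lint_cells`: the expected number of the cells. `exists_small`: some generic heights have at most that many cells. `small_tri`: the triangulation.
-/

set_option autoImplicit false

namespace Pool.Agent.Helper80.RT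

open Finset MeasureTheory
open Pool.Agent.Helper80.CT (vx cubeA cubeK Tri)
open scoped ENNReal

theorem ev1_eq {n : ℕ} (s : Fin (n + 1) → V n) (hd : (mat s).det ≠ 0) :
    ev1 s = {H | ∀ v, ev ((mat s)⁻¹.mulVec fun i => H (s i)) v ≤ H v} := by
  have hu : IsUnit (mat s).det := isUnit_iff_ne_zero.2 hd
  ext H
  constructor
  · rintro ⟨ℓ, h1, h2⟩ v
    have h3 : (fun i => H (s i)) = (mat s).mulVec ℓ := by
      rw [mat_mulVec]
      funext i
      exact h2 i
    rw [h3, Matrix.mulVec_mulVec, Matrix.nonsing_inv_mul _ hu, Matrix.one_mulVec]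
    exact h1 v
  · intro h
    refine ⟨_, h, fun i => ?_⟩
    have h3 : (mat s).mulVec ((mat s)⁻¹.mulVec fun i => H (s i)) = fun i => H (s i) := by
      rw [Matrix.mulVec_mulVec, Matrix.mul_nonsing_inv _ hu, Matrix.one_mulVec]
    rw [mat_mulVec] at h3
    exact (congrFun h3 i).symm

theorem ev1_meas {n : ℕ} (s : Fin (n + 1) → V n) (hd : (mat s).det ≠ 0) : MeasurableSet (ev1 s) := by
  rw [ev1_eq s hd, Set.setOf_forall]
  refine MeasurableSet.iInter fun v => measurableSet_le ?_ (measurable_pi_apply v)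
  have h1 : Continuous fun H : V n → ℝ => ev ((mat s)⁻¹.mulVec fun i => H (s i)) v := by
    unfold ev
    refine continuous_finsetSum _ fun k _ => continuous_const.mul ?_
    have h2 : Continuous fun H : V n → ℝ => (mat s)⁻¹.mulVec fun i => H (s i) :=
      Continuous.matrix_mulVec continuous_const (by fun_prop)
    exact (continuous_apply k).comp h2
  exact h1.measurable

theorem G_meas (n : ℕ) : Measurable fun H : V n → ℝ => ∏ v, dens (H v) :=
  Finset.measurable_prod _ fun v _ => dens_meas.comp (measurable_pi_apply v)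

/-- the expected number of the maximal cells -/
theorem lint_cells (n : ℕ) : ∫⁻ H : V n → ℝ, ((∏ v, dens (H v)) *
      (((cells H).filter fun S => S.card = n + 1).card : ℝ≥0∞)) ≤
    ENNReal.ofReal (Real.pi ^ n * Real.sqrt ((n + 1).factorial) / (n + 1)) := by
  classical
  have hf0 : (0 : ℝ) < (n.factorial : ℝ) := by exact_mod_cast n.factorial_pos
  have hf1 : (0 : ℝ) < ((n + 1).factorial : ℝ) := by exact_mod_cast (n + 1).factorial_pos
  have key : ((n + 1).factorial : ℝ≥0∞) * ∫⁻ H : V n → ℝ, ((∏ v, dens (H v)) *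
      (((cells H).filter fun S => S.card = n + 1).card : ℝ≥0∞)) ≤
      ENNReal.ofReal (n.factorial * (Real.sqrt ((n + 1).factorial) * Real.pi ^ n)) := by
    calc ((n + 1).factorial : ℝ≥0∞) * ∫⁻ H : V n → ℝ, ((∏ v, dens (H v)) *
          (((cells H).filter fun S => S.card = n + 1).card : ℝ≥0∞))
        = ∫⁻ H : V n → ℝ, ((n + 1).factorial : ℝ≥0∞) * ((∏ v, dens (H v)) *
          (((cells H).filter fun S => S.card = n + 1).card : ℝ≥0∞)) :=
          (lintegral_const_mul' _ _ (ENNReal.natCast_ne_top _)).symm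
      _ ≤ ∫⁻ H : V n → ℝ, ∑ s ∈ good n, (ev1 s).indicator (fun H => ∏ v, dens (H v)) H := by
          refine lintegral_mono_ae ?_
          filter_upwards [generic_ae n] with H hH
          have h1 := card_cells_le hH
          have h2 : ∑ s ∈ good n, (ev1 s).indicator (fun H => ∏ v, dens (H v)) H =
              (((good n).filter fun s => H ∈ ev1 s).card : ℝ≥0∞) * ∏ v, dens (H v) := by
            rw [← nsmul_eq_mul, ← Finset.sum_const, Finset.sum_filter]
            refine Finset.sum_congr rfl fun s _ => ?_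
            rw [Set.indicator_apply]
          rw [h2, mul_comm (∏ v, dens (H v)), ← mul_assoc]
          refine mul_le_mul_left ?_ _
          exact_mod_cast h1
      _ = ∑ s ∈ good n, ∫⁻ H : V n → ℝ, (ev1 s).indicator (fun H => ∏ v, dens (H v)) H := by
          refine lintegral_finsetSum _ fun s hs => ?_
          exact (G_meas n).indicator (ev1_meas s (Finset.mem_filter.1 hs).2.2)
      _ ≤ ∑ s ∈ good n, ENNReal.ofReal |(mat s).det| * (ENNReal.ofReal n.factorial *
            ∫⁻ p : Fin n → ℝ, ENNReal.ofReal (∏ i, pm (fun j => lg (p j)) (s i))) := by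
          refine Finset.sum_le_sum fun s hs => ?_
          obtain ⟨-, h1, h2⟩ := Finset.mem_filter.1 hs
          exact (one_simplex s h1 h2).trans (mul_le_mul_right (int_p s) _)
      _ = ENNReal.ofReal n.factorial * ∫⁻ p : Fin n → ℝ, ∑ s ∈ good n,
            ENNReal.ofReal (|(mat s).det| * ∏ i, pm (fun j => lg (p j)) (s i)) := by
          have hm : ∀ s : Fin (n + 1) → V n, Measurable fun p : Fin n → ℝ =>
              ENNReal.ofReal (|(mat s).det| * ∏ i, pm (fun j => lg (p j)) (s i)) := by
            intro s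
            refine ENNReal.measurable_ofReal.comp (measurable_const.mul
              (Finset.measurable_prod _ fun i _ => ?_))
            unfold pm lg
            refine Finset.measurable_prod _ fun j _ => ?_
            split_ifs <;> fun_prop
          rw [lintegral_finsetSum _ fun s _ => hm s, Finset.mul_sum]
          refine Finset.sum_congr rfl fun s _ => ?_
          rw [← mul_assoc, mul_comm (ENNReal.ofReal |(mat s).det|), mul_assoc]
          congr 1
          rw [← lintegral_const_mul' _ _ ENNReal.ofReal_ne_top]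
          refine lintegral_congr fun p => ?_
          rw [← ENNReal.ofReal_mul (abs_nonneg _)]
      _ ≤ ENNReal.ofReal n.factorial * ∫⁻ p : Fin n → ℝ,
            ENNReal.ofReal (Real.sqrt ((n + 1).factorial) * ∏ j, hs (p j)) := by
          refine mul_le_mul_right (lintegral_mono fun p => ?_) _
          rw [← ENNReal.ofReal_sum_of_nonneg fun s _ => mul_nonneg (abs_nonneg _)
            (Finset.prod_nonneg fun i _ => pm_nonneg p (s i))]
          refine ENNReal.ofReal_le_ofReal (le_trans ?_ (sum_abs_det p))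
          exact Finset.sum_le_sum_of_subset_of_nonneg (Finset.subset_univ _) fun s _ _ =>
            mul_nonneg (abs_nonneg _) (Finset.prod_nonneg fun i _ => pm_nonneg p (s i))
      _ = ENNReal.ofReal n.factorial * (ENNReal.ofReal (Real.sqrt ((n + 1).factorial)) *
            ∫⁻ p : Fin n → ℝ, ENNReal.ofReal (∏ j, hs (p j))) := by
          congr 1
          rw [← lintegral_const_mul' _ _ ENNReal.ofReal_ne_top]
          refine lintegral_congr fun p => ?_
          rw [← ENNReal.ofReal_mul (Real.sqrt_nonneg _)]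
      _ ≤ ENNReal.ofReal n.factorial * (ENNReal.ofReal (Real.sqrt ((n + 1).factorial)) *
            ENNReal.ofReal (Real.pi ^ n)) :=
          mul_le_mul_right (mul_le_mul_right (int_prod_hs n) _) _
      _ = _ := by
          rw [← ENNReal.ofReal_mul (Real.sqrt_nonneg _), ← ENNReal.ofReal_mul hf0.le]
  have h3 : (n.factorial : ℝ) * (Real.sqrt ((n + 1).factorial) * Real.pi ^ n) =
      ((n + 1).factorial : ℝ) * (Real.pi ^ n * Real.sqrt ((n + 1).factorial) / (n + 1)) := by
    rw [Nat.factorial_succ]
    push_cast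
    have : (n : ℝ) + 1 ≠ 0 := by positivity
    field_simp
  rw [h3, ENNReal.ofReal_mul hf1.le, ENNReal.ofReal_natCast] at key
  exact (ENNReal.mul_le_mul_iff_right (by exact_mod_cast (n + 1).factorial_ne_zero)
    (ENNReal.natCast_ne_top _)).1 key

theorem lint_G (n : ℕ) : ∫⁻ H : V n → ℝ, ∏ v, dens (H v) = 1 := by
  rw [lint_prod (fun _ : V n => dens) fun _ => dens_meas]
  simp [lint_dens]

theorem exists_small (n : ℕ) : ∃ H : V n → ℝ, Generic H ∧
    ((((cells H).filter fun S => S.card = n + 1).card : ℕ) : ℝ) ≤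
      Real.pi ^ n * Real.sqrt ((n + 1).factorial) / (n + 1) := by
  classical
  by_contra hcon
  push Not at hcon
  set B : ℝ := Real.pi ^ n * Real.sqrt ((n + 1).factorial) / (n + 1) with hB
  have hB0 : 0 ≤ B := by
    rw [hB]
    positivity
  have h1 : ∀ᵐ H : V n → ℝ, (((⌊B⌋₊ + 1 : ℕ) : ℝ≥0∞)) * ∏ v, dens (H v) ≤ (∏ v, dens (H v)) *
      (((cells H).filter fun S => S.card = n + 1).card : ℝ≥0∞) := by
    filter_upwards [generic_ae n] with H hH
    rw [mul_comm]
    refine mul_le_mul_right ?_ _
    have h2 := hcon H hH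
    have h3 : ⌊B⌋₊ + 1 ≤ ((cells H).filter fun S => S.card = n + 1).card := by
      have := (Nat.floor_lt hB0).2 h2
      omega
    exact_mod_cast h3
  have h2 := lintegral_mono_ae h1
  rw [lintegral_const_mul _ (G_meas n), lint_G, mul_one] at h2
  have h3 := h2.trans (lint_cells n)
  have h4 : ((⌊B⌋₊ + 1 : ℕ) : ℝ) ≤ B := by
    rw [← ENNReal.ofReal_natCast, ENNReal.ofReal_le_ofReal_iff hB0] at h3
    exact h3
  have h5 := Nat.lt_floor_add_one B
  push_cast at h4
  linarith

open Classical in
/-- the triangulation -/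
theorem small_tri (n : ℕ) :
    ∃ T : Finset (Finset (Fin n → ℝ)),
      (T.card : ℝ) ≤ Real.pi ^ n * Real.sqrt ((n + 1).factorial) / (n + 1) ∧
      (∀ S ∈ T, S.card = n + 1 ∧ AffineIndependent ℝ (fun x : S => (x : Fin n → ℝ)) ∧
        ∀ v ∈ S, ∀ i : Fin n, v i = 0 ∨ v i = 1) ∧
      (⋃ S ∈ T, convexHull ℝ (↑S : Set (Fin n → ℝ))) = Set.Icc (0 : Fin n → ℝ) 1 ∧
      (∀ S ∈ T, ∀ S' ∈ T,
        convexHull ℝ (↑S : Set (Fin n → ℝ)) ∩ convexHull ℝ (↑S' : Set (Fin n → ℝ)) =
          convexHull ℝ (↑(S ∩ S') : Set (Fin n → ℝ))) := by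
  obtain ⟨H, hH, h1⟩ := exists_small n
  obtain ⟨T, h2, h3, h4, h5⟩ := geo2 (cells_tri hH)
  exact ⟨T, le_trans (by exact_mod_cast h2) h1, h3, h4, h5⟩

end Pool.Agent.Helper80.RT
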