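import Mathlib

/-!
# Project RT: the asymptotic comparison

`√((n + 1)!) / (n + 1) ≤ (r √(n / e)) ^ n` for every `r > 1` and all large `n`.
-/

set_option autoImplicit false

namespace Pool.Agent.Helper80.RT

open Filter Topology

theorem fact_asy (r : ℝ) (hr : 1 < r) : ∀ᶠ n : ℕ in atTop,
    (n.factorial : ℝ) ≤ r ^ (2 * n) * (n / Real.exp 1) ^ n := by
  have h1 := Stirling.factorial_isEquivalent_stirling
  have h2 := h1.isLittleO.def (c := 1) one_pos
  have h3 := tendsto_pow_const_div_const_pow_of_one_lt 1 hr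
  have h4 : (0 : ℝ) < 1 / 16 := by norm_num
  filter_upwards [h2, h3.eventually (gt_mem_nhds h4), eventually_ge_atTop 1] with n hn h5 hn1
  have hr0 : 0 < r := by linarith
  have hn0 : (1 : ℝ) ≤ n := by exact_mod_cast hn1
  simp only [pow_one] at h5
  rw [Real.norm_eq_abs, Real.norm_eq_abs, one_mul] at hn
  have hp : 0 ≤ √(2 * n * Real.pi) * (n / Real.exp 1) ^ n := by positivity
  have h6 : (n.factorial : ℝ) ≤ 2 * (√(2 * n * Real.pi) * (n / Real.exp 1) ^ n) := by
    have h7 := le_abs_self ((n.factorial : ℝ) - √(2 * n * Real.pi) * (n / Real.exp 1) ^ n)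
    have h8 : |√(2 * n * Real.pi) * (n / Real.exp 1) ^ n| = √(2 * n * Real.pi) * (n / Real.exp 1) ^ n :=
      abs_of_nonneg hp
    simp only [Pi.sub_apply] at hn
    linarith
  have h9 : 2 * √(2 * n * Real.pi) ≤ r ^ (2 * n) := by
    have h10 : (n : ℝ) < 1 / 16 * r ^ n := by
      rwa [div_lt_iff₀ (by positivity)] at h5
    have h11 : √(2 * n * Real.pi) ≤ 8 * n := by
      rw [Real.sqrt_le_left (by positivity)]
      have := Real.pi_lt_four
      nlinarith
    have h12 : (1 : ℝ) ≤ r ^ n := one_le_pow₀ hr.le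
    calc 2 * √(2 * n * Real.pi) ≤ 16 * n := by linarith
      _ ≤ r ^ n := by linarith
      _ ≤ r ^ (2 * n) := pow_le_pow_right₀ hr.le (by omega)
  calc (n.factorial : ℝ) ≤ 2 * (√(2 * n * Real.pi) * (n / Real.exp 1) ^ n) := h6
    _ = (2 * √(2 * n * Real.pi)) * (n / Real.exp 1) ^ n := by ring
    _ ≤ r ^ (2 * n) * (n / Real.exp 1) ^ n := mul_le_mul_of_nonneg_right h9 (by positivity)

theorem sqrt_fact_asy (r : ℝ) (hr : 1 < r) : ∀ᶠ n : ℕ in atTop,
    √((n + 1).factorial : ℝ) / (n + 1) ≤ (r * √(n / Real.exp 1)) ^ n := by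
  filter_upwards [fact_asy r hr] with n hn
  have hr0 : 0 < r := by linarith
  rw [div_le_iff₀ (by positivity)]
  rw [Real.sqrt_le_left (by positivity)]
  rw [mul_pow, ← pow_mul, mul_pow r, mul_comm n 2, pow_mul (√_), Real.sq_sqrt (by positivity), Nat.factorial_succ]
  push_cast
  have h1 : ((n : ℝ) + 1) ≤ ((n : ℝ) + 1) ^ 2 := by nlinarith [Nat.cast_nonneg (α := ℝ) n]
  have h2 : (0 : ℝ) ≤ r ^ (2 * n) * (n / Real.exp 1) ^ n := by positivity
  calc ((n : ℝ) + 1) * n.factorial ≤ (n + 1) ^ 2 * (r ^ (2 * n) * (n / Real.exp 1) ^ n) :=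
        mul_le_mul h1 hn (by positivity) (by positivity)
    _ = _ := by ring

/-- the comparison -/
theorem ratio_num (c : ℝ) (hc : √(Real.exp 1) < c) : ∃ c' : ℝ, 0 < c' ∧ c' < Real.pi / Real.exp 1 ∧
    ∀ᶠ n : ℕ in atTop, Real.pi ^ n * √((n + 1).factorial : ℝ) / (n + 1) ≤ c ^ n * (c' * √n) ^ n := by
  have he : 0 < √(Real.exp 1) := Real.sqrt_pos.2 (Real.exp_pos 1)
  have hee : √(Real.exp 1) * √(Real.exp 1) = Real.exp 1 := Real.mul_self_sqrt (Real.exp_pos 1).le
  have hc0 : 0 < c := he.trans hc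
  have hpi := Real.pi_pos
  have h1 : Real.pi / (√(Real.exp 1) * c) < Real.pi / Real.exp 1 := by
    refine div_lt_div_of_pos_left hpi (Real.exp_pos 1) ?_
    nlinarith
  obtain ⟨c', h2, h3⟩ := exists_between h1
  have hc'0 : 0 < c' := lt_trans (by positivity) h2
  refine ⟨c', hc'0, h3, ?_⟩
  have hr : 1 < c * c' * √(Real.exp 1) / Real.pi := by
    rw [lt_div_iff₀ hpi]
    rw [div_lt_iff₀ (by positivity)] at h2
    nlinarith
  filter_upwards [sqrt_fact_asy _ hr] with n hn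
  have h4 : √(n / Real.exp 1) = √n / √(Real.exp 1) := Real.sqrt_div (Nat.cast_nonneg n) _
  have h5 : c * c' * √(Real.exp 1) / Real.pi * √(n / Real.exp 1) = c * (c' * √n) / Real.pi := by
    rw [h4]
    field_simp
  rw [h5, div_pow, mul_pow] at hn
  rw [mul_div_assoc]
  calc Real.pi ^ n * (√((n + 1).factorial : ℝ) / (n + 1)) ≤
        Real.pi ^ n * (c ^ n * (c' * √n) ^ n / Real.pi ^ n) := mul_le_mul_of_nonneg_left hn (by positivity)
    _ = c ^ n * (c' * √n) ^ n := by field_simp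

end Pool.Agent.Helper80.RT
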