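import Pool.Agent.Helper80.RT.Un
import Pool.Agent.Helper80.RT.Ex

/-!
# Block RT-TRI: the lower hull of generic heights is a triangulation

PROOF. `un` is `cells_un`. `ex`: the set `U = ⋃ S ∈ cells H, convexHull ℝ (vx '' S)` is closed (`Set.Finite.isClosed_biUnion`,
`Set.Finite.isClosed_convexHull`, see the proof of `cover88` in `CT/Geo.lean`) and contains all `z` with `0 < z i < 1` (`cells_ex`), so it contains the
cube (`interior` and `closure` of `Set.Icc 0 1`, see `closure_int88` in `CT/Geo.lean`; or the limit of `z + (1/k) (1/2 - z)`). Convert with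
`CT.mem_hull`.
-/

set_option autoImplicit false

namespace Pool.Agent.Helper80.RT

open Finset MeasureTheory
open Pool.Agent.Helper80.CT (vx cubeA cubeK Tri)
open scoped ENNReal

private theorem closure_int36 (n : ℕ) :
    closure (interior (Set.Icc (0 : Fin n → ℝ) 1)) = Set.Icc (0 : Fin n → ℝ) 1 := by
  have h1 : (Set.Icc (0 : Fin n → ℝ) 1) = Set.pi Set.univ fun _ => Set.Icc (0 : ℝ) 1 := by
    rw [← Set.pi_univ_Icc]
    rfl
  rw [h1, interior_pi_set Set.finite_univ, closure_pi_set]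
  refine Set.pi_congr rfl fun i _ => ?_
  rw [interior_Icc, closure_Ioo zero_ne_one]

private theorem int36 {n : ℕ} {z : Fin n → ℝ} (hz : z ∈ interior (Set.Icc (0 : Fin n → ℝ) 1)) (i : Fin n) :
    0 < z i ∧ z i < 1 := by
  have h1 : (Set.Icc (0 : Fin n → ℝ) 1) = Set.pi Set.univ fun _ => Set.Icc (0 : ℝ) 1 := by
    rw [← Set.pi_univ_Icc]
    rfl
  rw [h1, interior_pi_set Set.finite_univ] at hz
  have h2 := hz i (Set.mem_univ i)
  rw [interior_Icc] at h2
  exact h2

theorem cells_tri {n : ℕ} {H : V n → ℝ} (hH : Generic H) :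
    Tri (cubeA (Fin n)) (cubeK (Fin n)) (cells H) := by
  refine ⟨fun z hz => ?_, cells_un hH⟩
  obtain ⟨U, hU⟩ : ∃ U, U = ⋃ S ∈ cells H, convexHull ℝ (vx '' (S : Set (V n))) := ⟨_, rfl⟩
  have hUc : IsClosed U := by
    rw [hU]
    exact Set.Finite.isClosed_biUnion (Finset.finite_toSet _) fun S _ =>
      ((S.finite_toSet.image vx).isClosed_convexHull ℝ)
  have hsub : Set.Icc (0 : Fin n → ℝ) 1 ⊆ U := by
    rw [← closure_int36, hUc.closure_subset_iff]
    intro x hx
    obtain ⟨S, hS, hxS⟩ := cells_ex H x (int36 hx)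
    rw [hU]
    exact Set.mem_biUnion hS hxS
  have hz2 : z.2 ∈ Set.Icc (0 : Fin n → ℝ) 1 := ⟨fun i => (hz.2 i).1, fun i => (hz.2 i).2⟩
  have hz3 := hsub hz2
  rw [hU] at hz3
  obtain ⟨S, hS, hxS⟩ := Set.mem_iUnion₂.1 hz3
  obtain ⟨t, h1, h2, h3⟩ := (Pool.Agent.Helper80.CT.mem_hull S z.2).1 hxS
  refine ⟨S, hS, t, h1, h2, h3.trans ?_⟩
  rw [← hz.1]

end Pool.Agent.Helper80.RT
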