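import Pool.Agent.Helper80.RT.Defs

/-!
# Block RT-UN: uniqueness of the coordinates for a generic regular triangulation

PROOF. `cubeA (Fin n) p = (1, vx p)`; an equation between combinations of the `cubeA (Fin n) p` is the same as the equation between
combinations of the `row p` (`Prod.ext_iff`, `funext_iff`, `Fin.cases`), and `∑ p, t p * ev ℓ p` is a linear function of
`∑ p, t p • row p`. Let `ℓ`, `ℓ'` be the affine functions of `S`, `S'` (`mem_cells`, `mem_tie`). Then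
`∑ t H = ∑ t ev ℓ = ∑ t' ev ℓ ≤ ∑ t' H` and by symmetry `∑ t' H ≤ ∑ t H`. So `∑ t' (H - ev ℓ) = 0` with nonnegative terms: `t'` has support in
`S = tie H ℓ`. Now `g = t - t'` has support in `S` and `∑ g v • row v = 0`, so `g = 0` by `hH S ℓ`.
-/

set_option autoImplicit false

namespace Pool.Agent.Helper80.RT

open Finset MeasureTheory
open Pool.Agent.Helper80.CT (vx cubeA cubeK Tri)
open scoped ENNReal

private theorem row_sum88 {n : ℕ} {t t' : V n → ℝ}
    (h : ∑ p, t p • cubeA (Fin n) p = ∑ p, t' p • cubeA (Fin n) p) :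
    ∑ p, t p • row p = ∑ p, t' p • row p := by
  have h1 := congrArg Prod.fst h
  have h2 := congrArg Prod.snd h
  rw [Prod.fst_sum, Prod.fst_sum] at h1
  rw [Prod.snd_sum, Prod.snd_sum] at h2
  funext k
  rw [Finset.sum_apply, Finset.sum_apply]
  refine Fin.cases ?_ (fun j => ?_) k
  · exact h1
  · have h3 := congrFun h2 j
    rw [Finset.sum_apply, Finset.sum_apply] at h3
    exact h3

private theorem ev_sum88 {n : ℕ} {t t' : V n → ℝ} (h : ∑ p, t p • row p = ∑ p, t' p • row p)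
    (ℓ : Fin (n + 1) → ℝ) : ∑ p, t p * ev ℓ p = ∑ p, t' p * ev ℓ p := by
  have e : ∀ u : V n → ℝ, ∑ p, u p * ev ℓ p = ∑ k, (∑ p, u p • row p) k * ℓ k := by
    intro u
    unfold ev
    simp only [Finset.sum_apply, Pi.smul_apply, smul_eq_mul, Finset.sum_mul, Finset.mul_sum]
    rw [Finset.sum_comm]
    exact Finset.sum_congr rfl fun k _ => Finset.sum_congr rfl fun p _ => by ring
  rw [e t, e t', h]

theorem cells_un {n : ℕ} {H : V n → ℝ} (hH : Generic H) :
    ∀ S ∈ cells H, ∀ S' ∈ cells H, ∀ t t' : V n → ℝ, (∀ p, 0 ≤ t p) → (∀ p, p ∉ S → t p = 0) →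
    (∀ p, 0 ≤ t' p) → (∀ p, p ∉ S' → t' p = 0) →
    ∑ p, t p • cubeA (Fin n) p = ∑ p, t' p • cubeA (Fin n) p → t = t' := by
  intro S hS S' hS' t t' ht0 htS ht0' htS' heq
  obtain ⟨ℓ, hℓ, rfl⟩ := mem_cells.1 hS
  obtain ⟨ℓ', hℓ', rfl⟩ := mem_cells.1 hS'
  have hrow := row_sum88 heq
  have e1 : ∑ p, t p * ev ℓ p = ∑ p, t p * H p := by
    refine Finset.sum_congr rfl fun p _ => ?_
    by_cases hp : p ∈ tie H ℓ
    · rw [mem_tie.1 hp]
    · rw [htS p hp, zero_mul, zero_mul]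
  have e2 : ∑ p, t' p * ev ℓ' p = ∑ p, t' p * H p := by
    refine Finset.sum_congr rfl fun p _ => ?_
    by_cases hp : p ∈ tie H ℓ'
    · rw [mem_tie.1 hp]
    · rw [htS' p hp, zero_mul, zero_mul]
  have e3 : ∑ p, t' p * ev ℓ p ≤ ∑ p, t' p * H p :=
    Finset.sum_le_sum fun p _ => mul_le_mul_of_nonneg_left (hℓ p) (ht0' p)
  have e4 : ∑ p, t p * ev ℓ' p ≤ ∑ p, t p * H p :=
    Finset.sum_le_sum fun p _ => mul_le_mul_of_nonneg_left (hℓ' p) (ht0 p)
  have e5 := ev_sum88 hrow ℓ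
  have e6 := ev_sum88 hrow ℓ'
  have e7 : ∑ p, t' p * (H p - ev ℓ p) = 0 := by
    simp only [mul_sub, Finset.sum_sub_distrib]
    linarith
  have e8 : ∀ p, p ∉ tie H ℓ → t' p = 0 := by
    intro p hp
    have h7 := (Finset.sum_eq_zero_iff_of_nonneg
      (fun q _ => mul_nonneg (ht0' q) (sub_nonneg.2 (hℓ q)))).1 e7 p (Finset.mem_univ p)
    rcases mul_eq_zero.1 h7 with h8 | h8
    · exact h8
    · exact absurd (mem_tie.2 (by linarith)) hp
  have e9 : (fun p => t p - t' p) = 0 := by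
    refine hH (tie H ℓ) ℓ (fun v hv => mem_tie.1 hv) _ ?_ ?_
    · intro p hp
      show t p - t' p = 0
      rw [htS p hp, e8 p hp, sub_zero]
    · simp only [sub_smul, Finset.sum_sub_distrib]
      rw [hrow, sub_self]
  funext p
  have := congrFun e9 p
  simp only [Pi.zero_apply] at this
  linarith

end Pool.Agent.Helper80.RT
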